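import Pool.Agent.Shared.H56.Decode
import Pool.Agent.Shared.H27.Micro
import Pool.Prelude.Def_F_458e953d

/-!
The converse: every function that is polynomial time in the sense of the Prelude satisfies `PT`.
Consequences: composition of `IsPolyTime`, transitivity of `ManyOneReducible`.
-/

set_option autoImplicit false

namespace Pool.Agent.Shared.H56

open Function Polynomial Turing Turing.TM2 Pool.Agent.Shared.H27

/-- One step of a table driven stack machine. -/
def tstep (act : List (ℕ × ℕ × ℕ)) (nxt : List (List ℕ)) (s : ℕ × List (List ℕ)) :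
    ℕ × List (List ℕ) :=
  ((nxt.getD s.1 []).getD
      (if s.2.getD (act.getD s.1 (0, 0, 0)).2.1 [] = [] then 0
        else (s.2.getD (act.getD s.1 (0, 0, 0)).2.1 []).headD 0 + 1) 0,
    s.2.set (act.getD s.1 (0, 0, 0)).2.1
      (if (act.getD s.1 (0, 0, 0)).1 = 1 then
        (act.getD s.1 (0, 0, 0)).2.2 :: s.2.getD (act.getD s.1 (0, 0, 0)).2.1 []
      else if (act.getD s.1 (0, 0, 0)).1 = 2 then (s.2.getD (act.getD s.1 (0, 0, 0)).2.1 []).tail
      else s.2.getD (act.getD s.1 (0, 0, 0)).2.1 []))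

theorem pt_tstep (act : List (ℕ × ℕ × ℕ)) (nxt : List (List ℕ)) : PT (tstep act nxt) := by
  unfold tstep
  fun_prop

theorem sz_getD_le {β : Type} [N487b59b3 β] (l : List β) (i : ℕ) (d : β) :
    sz (l.getD i d) ≤ sz l + sz d := by
  rcases lt_or_ge i l.length with h | h
  · rw [List.getD_eq_getElem _ _ h]
    have := sz_le_of_mem (List.getElem_mem h); omega
  · rw [List.getD_eq_default _ _ h]; omega

theorem sz_set_le (l : List (List ℕ)) (i : ℕ) (x : List ℕ) (c : ℕ)
    (h : sz x ≤ sz (l.getD i []) + c) : sz (l.set i x) ≤ sz l + 2 * c := by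
  induction l generalizing i with
  | nil => simp
  | cons y l ih =>
    cases i with
    | zero => simp at h ⊢; omega
    | succ i => have := ih i (by simpa using h); simp; omega

theorem sz_tstep (act : List (ℕ × ℕ × ℕ)) (nxt : List (List ℕ)) (s : ℕ × List (List ℕ)) :
    sz (tstep act nxt s) ≤ sz s + (2 * sz nxt + 2 * (2 * (sz act + 2) + 1)) := by
  obtain ⟨c, S⟩ := s
  simp only [tstep, sz_pair]
  have h1 : ∀ j, sz ((nxt.getD c []).getD j 0) ≤ sz nxt := fun j => by
    have := sz_getD_le (nxt.getD c []) j 0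
    have := sz_getD_le nxt c []
    simp only [sz_zero, sz_nil] at *
    omega
  have h2 : sz (act.getD c (0, 0, 0)).2.2 ≤ sz act + 2 := by
    have := sz_getD_le act c (0, 0, 0)
    generalize act.getD c (0, 0, 0) = t at this
    obtain ⟨a, b, d⟩ := t
    simp at this ⊢
    omega
  have h3 := sz_set_le S (act.getD c (0, 0, 0)).2.1
    (if (act.getD c (0, 0, 0)).1 = 1 then
        (act.getD c (0, 0, 0)).2.2 :: S.getD (act.getD c (0, 0, 0)).2.1 []
      else if (act.getD c (0, 0, 0)).1 = 2 then (S.getD (act.getD c (0, 0, 0)).2.1 []).tail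
      else S.getD (act.getD c (0, 0, 0)).2.1 []) (2 * (sz act + 2) + 1) (by
        split_ifs
        · rw [sz_cons]; omega
        · have := sz_le_of_sublist (List.tail_sublist (S.getD (act.getD c (0, 0, 0)).2.1 []))
          omega
        · omega)
  have := h1 (if S.getD (act.getD c (0, 0, 0)).2.1 [] = [] then 0
        else (S.getD (act.getD c (0, 0, 0)).2.1 []).headD 0 + 1)
  omega

section Sim

open Classical

variable {K : Type} [DecidableEq K] {Γ : K → Type} {Λ σ : Type}
variable (Ks : List K) (Cs : List (Option (Stmt Γ Λ σ) × σ)) (Ss : List (Σ k, Γ k))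

noncomputable def symCode (k : K) (s : Γ k) : ℕ := Ss.idxOf ⟨k, s⟩

noncomputable def cfgCode (c : MCfg Γ Λ σ) : ℕ × List (List ℕ) :=
  (Cs.idxOf (c.1, c.2.1), Ks.map fun k => (c.2.2 k).map (symCode Ss k))

noncomputable def actOf : Option (Stmt Γ Λ σ) × σ → ℕ × ℕ × ℕ
  | (some (.push k f _), v) => (1, Ks.idxOf k, symCode Ss k (f v))
  | (some (.pop k _ _), _) => (2, Ks.idxOf k, 0)
  | (some (.peek k _ _), _) => (0, Ks.idxOf k, 0)
  | _ => (0, Ks.length, 0)

noncomputable def headOf (k : K) (h : ℕ) : Option (Γ k) :=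
  if hx : ∃ s : Γ k, (⟨k, s⟩ : Σ k, Γ k) ∈ Ss ∧ symCode Ss k s + 1 = h then some hx.choose else none

noncomputable def nxtOf (M : Λ → Stmt Γ Λ σ) : Option (Stmt Γ Λ σ) × σ → ℕ → Option (Stmt Γ Λ σ) × σ
  | (none, v), _ => (none, v)
  | (some (.push _ _ q), v), _ => (some q, v)
  | (some (.peek k f q), v), h => (some q, f v (headOf Ss k h))
  | (some (.pop k f q), v), h => (some q, f v (headOf Ss k h))
  | (some (.load a q), v), _ => (some q, a v)
  | (some (.branch f q₁ q₂), v), _ => (some (cond (f v) q₁ q₂), v)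
  | (some (.goto f), v), _ => (some (M (f v)), v)
  | (some .halt, v), _ => (none, v)

theorem symCode_inj {k : K} {s t : Γ k} (hs : (⟨k, s⟩ : Σ k, Γ k) ∈ Ss)
    (h : symCode Ss k s = symCode Ss k t) : s = t := by
  have := (List.idxOf_inj hs).1 h
  simpa using this

theorem headOf_code (k : K) (l : List (Γ k)) (hl : ∀ s ∈ l, (⟨k, s⟩ : Σ k, Γ k) ∈ Ss) :
    headOf Ss k (if l.map (symCode Ss k) = [] then 0 else (l.map (symCode Ss k)).headD 0 + 1) =
      l.head? := by
  cases l with
  | nil => simp [headOf]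
  | cons s l =>
    have hx : ∃ t : Γ k, (⟨k, t⟩ : Σ k, Γ k) ∈ Ss ∧ symCode Ss k t + 1 = symCode Ss k s + 1 :=
      ⟨s, hl s List.mem_cons_self, rfl⟩
    have := hx.choose_spec
    simp only [List.map_cons, reduceCtorEq, if_false, List.headD_cons, List.head?_cons, headOf]
    rw [dif_pos hx, symCode_inj Ss this.1 (Nat.succ_injective this.2)]

theorem head_lt (k : K) (l : List (Γ k)) (hl : ∀ s ∈ l, (⟨k, s⟩ : Σ k, Γ k) ∈ Ss) :
    (if l.map (symCode Ss k) = [] then 0 else (l.map (symCode Ss k)).headD 0 + 1) <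
      Ss.length + 1 := by
  cases l with
  | nil => simp
  | cons s l =>
    have := List.idxOf_lt_length_of_mem (hl s List.mem_cons_self)
    simpa [symCode] using this

theorem getD_stacks (hK : ∀ k, k ∈ Ks) (g : K → List ℕ) (k : K) :
    (Ks.map g).getD (Ks.idxOf k) [] = g k := by
  have h := List.idxOf_lt_length_of_mem (hK k)
  rw [List.getD_eq_getElem _ _ (by simpa using h)]
  simp

theorem set_stacks (hK : ∀ k, k ∈ Ks) (hN : Ks.Nodup) (S : ∀ k, List (Γ k)) (k : K) (l : List (Γ k)) :
    (Ks.map fun k => (S k).map (symCode Ss k)).set (Ks.idxOf k) (l.map (symCode Ss k)) =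
      Ks.map fun k' => (update S k l k').map (symCode Ss k') := by
  apply List.ext_getElem (by simp)
  intro i h1 h2
  have hi : i < Ks.length := by simpa using h2
  rw [List.getElem_set]
  split_ifs with h
  · subst h
    simp only [List.getElem_map]
    have : Ks[Ks.idxOf k] = k := List.getElem_idxOf _
    refine Eq.trans ?_ (congrArg (fun k' => (update S k l k').map (symCode Ss k')) this).symm
    simp
  · simp only [List.getElem_map]
    rw [update_of_ne]
    intro e
    exact h (e ▸ hN.idxOf_getElem i hi)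

theorem tstep_code (M : Λ → Stmt Γ Λ σ) (hK : ∀ k, k ∈ Ks) (hN : Ks.Nodup) (c : MCfg Γ Λ σ)
    (hc : (c.1, c.2.1) ∈ Cs) (hS : ∀ k, ∀ s ∈ c.2.2 k, (⟨k, s⟩ : Σ k, Γ k) ∈ Ss) :
    tstep (Cs.map (actOf Ks Ss))
      (Cs.map fun x => (List.range (Ss.length + 1)).map fun h => Cs.idxOf (nxtOf Ss M x h))
      (cfgCode Ks Cs Ss c) = cfgCode Ks Cs Ss (mstep M c) := by
  obtain ⟨o, v, S⟩ := c
  have h0 := List.idxOf_lt_length_of_mem hc
  have e1 : (Cs.map (actOf Ks Ss)).getD (Cs.idxOf (o, v)) (0, 0, 0) = actOf Ks Ss (o, v) := by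
    rw [List.getD_eq_getElem _ _ (by simpa using h0)]; simp
  have e2 : ∀ h < Ss.length + 1, ((Cs.map fun x => (List.range (Ss.length + 1)).map fun h =>
      Cs.idxOf (nxtOf Ss M x h)).getD (Cs.idxOf (o, v)) []).getD h 0 =
        Cs.idxOf (nxtOf Ss M (o, v) h) := by
    intro h hh
    rw [List.getD_eq_getElem _ [] (by simpa using h0), List.getD_eq_getElem _ _ (by simpa using hh)]
    simp
  have e3 : ∀ k, (Ks.map fun k => (S k).map (symCode Ss k)).getD (Ks.idxOf k) [] =
      (S k).map (symCode Ss k) := getD_stacks Ks hK _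
  have e4 : (Ks.map fun k => (S k).map (symCode Ss k)).getD Ks.length [] = [] :=
    List.getD_eq_default _ _ (by simp)
  have e5 : ∀ x, (Ks.map fun k => (S k).map (symCode Ss k)).set Ks.length x =
      Ks.map fun k => (S k).map (symCode Ss k) := fun x => List.set_eq_of_length_le (by simp)
  simp only [tstep, cfgCode, e1]
  rcases o with _ | q
  · simp only [actOf, e4, e5, if_true]
    rw [e2 _ (by omega)]; rfl
  cases q with
  | push k f q =>
    simp only [actOf, e3, if_true]
    rw [e2 _ (head_lt Ss k _ (hS k)), ← List.map_cons, set_stacks Ks Ss hK hN]; rfl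
  | peek k f q =>
    simp only [actOf, e3]
    rw [e2 _ (head_lt Ss k _ (hS k)), if_neg (show ¬ (0 = 1) by omega), if_neg (show ¬ (0 = 2) by omega),
      set_stacks Ks Ss hK hN,
      update_eq_self]
    simp only [nxtOf, headOf_code Ss k _ (hS k)]; rfl
  | pop k f q =>
    simp only [actOf, e3, if_true]
    rw [e2 _ (head_lt Ss k _ (hS k)), if_neg (show ¬ (2 = 1) by omega), ← List.map_tail, set_stacks Ks Ss hK hN]
    simp only [nxtOf, headOf_code Ss k _ (hS k)]; rfl
  | load a q => simp only [actOf, e4, e5, if_true]; rw [e2 _ (by omega)]; rfl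
  | branch f q₁ q₂ => simp only [actOf, e4, e5, if_true]; rw [e2 _ (by omega)]; rfl
  | goto f => simp only [actOf, e4, e5, if_true]; rw [e2 _ (by omega)]; rfl
  | halt => simp only [actOf, e4, e5, if_true]; rw [e2 _ (by omega)]; rfl

end Sim

variable {α β γ : Type} [N487b59b3 α] [N487b59b3 β] [N487b59b3 γ]

theorem PT.of_isPolyTime {f : α → β} (h : N68a2faeb.IsPolyTime f) : PT f := by
  classical
  obtain ⟨⟨⟨tm, ι, ο⟩, T, hout⟩⟩ := h
  have := tm.kFin
  have := tm.ΛFin
  have := tm.σFin
  have := tm.Γk₀Fin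
  let M := tm.m
  let Ks : List tm.K := Finset.univ.toList
  have hK : ∀ k, k ∈ Ks := fun k => by simp [Ks]
  have hN : Ks.Nodup := Finset.nodup_toList _
  have hC : ((insert none (some '' allSt M)) ×ˢ (Set.univ : Set tm.σ)).Finite :=
    (((allSt_finite M).image _).insert _).prod Set.finite_univ
  have hS : (⋃ k, (Sigma.mk k) '' allSym M tm.k₀ k : Set (Σ k, tm.Γ k)).Finite :=
    Set.finite_iUnion fun k => (allSym_finite M tm.k₀ k).image _
  let Cs := hC.toFinset.toList
  let Ss := (⟨tm.k₁, ο.symm true⟩ : Σ k, tm.Γ k) :: hS.toFinset.toList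
  have good1 : ∀ c, GoodCfg M tm.k₀ c → (c.1, c.2.1) ∈ Cs := by
    rintro ⟨o, v, S⟩ hc
    simp only [Cs, Finset.mem_toList, Set.Finite.mem_toFinset]
    refine ⟨?_, trivial⟩
    rcases o with _ | q
    · exact Or.inl rfl
    · exact Or.inr ⟨q, hc.1 q rfl, rfl⟩
  have good2 : ∀ c, GoodCfg M tm.k₀ c → ∀ k, ∀ s ∈ c.2.2 k, (⟨k, s⟩ : Σ k, tm.Γ k) ∈ Ss := by
    intro c hc k s hs
    refine List.mem_cons_of_mem _ ?_
    simp only [Finset.mem_toList, Set.Finite.mem_toFinset, Set.mem_iUnion]
    exact ⟨k, s, hc.2 k s hs, rfl⟩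
  let act := Cs.map (actOf Ks Ss)
  let nxt := Cs.map fun x => (List.range (Ss.length + 1)).map fun h => Cs.idxOf (nxtOf Ss M x h)
  have sim : ∀ n c, GoodCfg M tm.k₀ c → (tstep act nxt)^[n] (cfgCode Ks Cs Ss c) =
      cfgCode Ks Cs Ss ((mstep M)^[n] c) := by
    intro n
    induction n with
    | zero => intro c _; rfl
    | succ n ih =>
      intro c hc
      rw [iterate_succ_apply, iterate_succ_apply, ← ih _ (goodCfg_mstep M _ c hc)]
      congr 1
      convert tstep_code Ks Cs Ss M hK hN c (good1 c hc) (good2 c hc)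
  obtain ⟨B, hB⟩ : ∃ B, ∀ l, depth (M l) ≤ B :=
    ⟨Finset.univ.sup fun l => depth (M l), fun l =>
      Finset.le_sup (f := fun l => depth (M l)) (Finset.mem_univ l)⟩
  let c0 : ℕ := Cs.idxOf (some (M tm.main), tm.initialState)
  let s0 : α → ℕ × List (List ℕ) := fun a => (c0, (List.replicate Ks.length []).set (Ks.idxOf tm.k₀)
    ((H56.enc a).map fun b => bif b then symCode Ss tm.k₀ (ι.symm true) else symCode Ss tm.k₀ (ι.symm false)))
  have hs0 : PT s0 := by fun_prop
  have hn : PT fun a : α => un (T.eval (sz a) * B) :=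
    ((PT.un_sz PT.id').un_poly T).un_mul (PT.const _)
  have h1 : PT fun a => (tstep act nxt)^[T.eval (sz a) * B] (s0 a) :=
    PT.iterate_add (f := fun _ => tstep act nxt) ((pt_tstep _ _).comp (by fun_prop)) hs0 hn
      ⟨Polynomial.C _, fun a s => by rw [eval_C]; exact sz_tstep act nxt s⟩
  refine PT.of_enc ((PT.map (f := fun _ c => c == symCode Ss tm.k₁ (ο.symm true)) (by fun_prop)
    (h1.snd.getD (PT.const (Ks.idxOf tm.k₁)) (PT.const []))).congr fun a => ?_)
  obtain ⟨⟨n, hn1⟩, hn2⟩ := hout a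
  have h2 := mstep_of_halts M B hB n _ _ hn1 rfl (T.eval (sz a) * B) (Nat.mul_le_mul_right _ hn2)
  have h3 : GoodCfg M tm.k₀ (emb M (initList tm ((H56.enc a).map ι.invFun))) := by
    refine ⟨fun q hq => ?_, fun k s hs => ?_⟩
    · simp only [allSt, Set.mem_iUnion, Set.mem_setOf_eq]
      cases hq
      exact ⟨_, self_mem_subs _⟩
    · by_cases hk : k = tm.k₀
      · exact Or.inl hk
      · simp [emb, initList, hk] at hs
  have h4 : s0 a = cfgCode Ks Cs Ss (emb M (initList tm ((H56.enc a).map ι.invFun))) := by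
    refine Prod.ext rfl ?_
    have e := set_stacks Ks Ss hK hN (fun _ => []) tm.k₀ ((H56.enc a).map ι.invFun)
    simp only [List.map_nil, List.map_const'] at e
    simp only [s0, cfgCode]
    convert e using 2
    · rw [List.map_map]
      exact List.map_congr_left fun b _ => by cases b <;> rfl
    · funext k
      by_cases hk : k = tm.k₀
      · subst hk; simp [emb, initList]
      · simp [emb, initList, hk]
  rw [h4, sim _ _ h3]
  erw [h2]
  simp only [cfgCode]
  rw [getD_stacks Ks hK]
  simp only [emb, haltList, dif_pos, List.map_map]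
  refine (List.map_map ..).trans ((List.map_congr_left fun b _ => ?_).trans (List.map_id _))
  cases b
  · simp only [comp_apply, id_eq, beq_eq_false_iff_ne]
    intro h
    have := symCode_inj Ss (k := tm.k₁) (s := ο.symm true) List.mem_cons_self h.symm
    simp at this
  · simp

theorem isPolyTime_iff {f : α → β} : N68a2faeb.IsPolyTime f ↔ PT f :=
  ⟨PT.of_isPolyTime, PT.isPolyTime⟩

theorem isPolyTime_comp {f : β → γ} {g : α → β} (hf : N68a2faeb.IsPolyTime f)
    (hg : N68a2faeb.IsPolyTime g) : N68a2faeb.IsPolyTime (fun a => f (g a)) :=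
  ((PT.of_isPolyTime hf).comp (PT.of_isPolyTime hg)).isPolyTime

theorem manyOneReducible_trans {A B C : N68a2faeb.DecisionProblem}
    (h1 : N793a5b8e.ManyOneReducible A B) (h2 : N793a5b8e.ManyOneReducible B C) :
    N793a5b8e.ManyOneReducible A C := by
  obtain ⟨f, hf, e1⟩ := h1
  obtain ⟨g, hg, e2⟩ := h2
  exact ⟨fun x => g (f x), isPolyTime_comp hg hf, fun x => (e1 x).trans (e2 _)⟩

end Pool.Agent.Shared.H56
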