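import Pool.Agent.Shared.H56.More

/-!
Decoding of bit strings in polynomial time. `DecPT β` says that `bitDecode` into `β` is polynomial time,
the optional result being written as a list with at most one entry.
-/

set_option autoImplicit false

namespace Pool.Agent.Shared.H56

open Function Polynomial N487b59b3

variable {α β γ δ : Type} [N487b59b3 α] [N487b59b3 β] [N487b59b3 γ] [N487b59b3 δ]

/-- Decoding into `β` is polynomial time. -/
class DecPT (β : Type) [N487b59b3 β] : Prop where
  pt : PT (fun x : List Bool => (bitDecode x : Option β).toList)

@[fun_prop] theorem PT.decode_toList [DecPT β] {x : α → List Bool} (hx : PT x) :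
    PT (fun a => (bitDecode (x a) : Option β).toList) := DecPT.pt.comp hx

@[fun_prop] theorem PT.decode_isSome [DecPT β] {x : α → List Bool} (hx : PT x) :
    PT (fun a => (bitDecode (x a) : Option β).isSome) :=
  (PT.decode_toList (β := β) hx).isEmpty.not.congr fun a => by
    cases (bitDecode (x a) : Option β) <;> rfl

@[fun_prop] theorem PT.decode_getD [DecPT β] {x : α → List Bool} {d : α → β} (hx : PT x)
    (hd : PT d) : PT (fun a => (bitDecode (x a) : Option β).getD (d a)) :=
  ((PT.decode_toList (β := β) hx).headD hd).congr fun a => by
    cases (bitDecode (x a) : Option β) <;> rfl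

/-- Case distinction on the result of decoding. -/
theorem PT.decode_elim [DecPT β] {x : α → List Bool} {n : α → γ} {g : α → β → γ} (hx : PT x)
    (hn : PT n) (hg : PT fun p : α × β => g p.1 p.2) :
    PT (fun a => (bitDecode (x a) : Option β).elim (n a) (g a)) :=
  (PT.lcases (c := fun a y _ => g a y) (PT.decode_toList (β := β) hx) hn
    (hg.comp (g := fun p : α × β × List β => (p.1, p.2.1)) (by fun_prop))).congr fun a => by
      cases (bitDecode (x a) : Option β) <;> rfl

theorem decodePosNum_eq (l : List Bool) :
    (Computability.decodePosNum l : ℕ) =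
      ofBE (if l.getLast? = some true then l.reverse else true :: l.reverse) := by
  have h0 : ∀ (b : Bool) (t : List Bool), ofBE (t ++ [b]) = 2 * ofBE t + b.toNat := by
    intro b t; simp [ofBE, List.foldl_append, Nat.bit_val]
  induction l with
  | nil => simp [Computability.decodePosNum, ofBE]
  | cons b l ih =>
    cases l with
    | nil => cases b <;> simp [Computability.decodePosNum, ofBE]
    | cons c l =>
      have e : (if (b :: c :: l).getLast? = some true then (b :: c :: l).reverse
          else true :: (b :: c :: l).reverse) =
          (if (c :: l).getLast? = some true then (c :: l).reverse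
          else true :: (c :: l).reverse) ++ [b] := by
        rw [List.getLast?_cons_cons]
        split_ifs <;> simp
      rw [e, h0, ← ih]
      cases b
      · rw [Computability.decodePosNum, PosNum.cast_bit0]; simp; ring
      · rw [Computability.decodePosNum, if_neg (by simp), PosNum.cast_bit1]; simp; ring

instance : DecPT ℕ := ⟨by
  refine (show PT (fun x : List Bool => [if x = [] then 0 else
    ofBE (if x.reverse.headD false = true then x.reverse else true :: x.reverse)]) by
      fun_prop).congr fun x => ?_
  show _ = [Computability.decodeNat x]
  congr 1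
  unfold Computability.decodeNat Computability.decodeNum
  split_ifs with h h2
  · rfl
  · rw [PosNum.cast_to_num, Num.cast_pos, decodePosNum_eq, if_pos]
    rw [← List.head?_reverse]
    cases hx : x.reverse <;> simp_all
  · rw [PosNum.cast_to_num, Num.cast_pos, decodePosNum_eq, if_neg]
    rw [← List.head?_reverse]
    cases hx : x.reverse <;> simp_all⟩

instance : DecPT Bool := ⟨by
  refine (show PT (fun x : List Bool => if x.length = 1 then x else []) by fun_prop).congr
    fun x => ?_
  rcases x with _ | ⟨b, _ | ⟨c, x⟩⟩
  · rfl
  · rfl
  · simp only [List.length_cons]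
    rw [if_neg (by omega)]
    rfl⟩

theorem pt_undelimit : PT (fun x : List Bool => (undelimit x).toList) := by
  let f : ℕ × List Bool × List Bool → Bool → ℕ × List Bool × List Bool := fun s b =>
    if s.1 = 0 then (bif b then (1, s.2) else (2, s.2))
    else if s.1 = 1 then (0, s.2.1 ++ [b], s.2.2) else (2, s.2.1, s.2.2 ++ [b])
  have k2 : ∀ (x u v : List Bool), x.foldl f (2, u, v) = (2, u, v ++ x) := by
    intro x
    induction x with
    | nil => simp
    | cons b x ih => intro u v; simp [f, ih]
  have k0 : ∀ (n : ℕ) (x u : List Bool), x.length ≤ n →
      (if (x.foldl f (0, u, [])).1 = 2 then [(x.foldl f (0, u, [])).2] else []) =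
        ((undelimit x).map fun p => (u ++ p.1, p.2)).toList := by
    intro n
    induction n with
    | zero => intro x u h; rw [List.length_eq_zero_iff.1 (Nat.le_zero.1 h)]; rfl
    | succ n ih =>
      intro x u h
      rcases x with _ | ⟨b, x⟩
      · rfl
      cases b
      · have : f (0, u, []) false = (2, u, []) := rfl
        rw [List.foldl_cons, this, k2]; simp [undelimit]
      rcases x with _ | ⟨c, x⟩
      · rfl
      have : f (f (0, u, []) true) c = (0, u ++ [c], []) := rfl
      rw [List.foldl_cons, List.foldl_cons, this, ih _ _ (by simp at h; omega), undelimit]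
      cases undelimit x <;> simp
  have h1 : PT (fun x : List Bool => x.foldl f (0, [], [])) := by
    refine PT.foldl_pot (f := fun _ => f) (by fun_prop) (by fun_prop) (by fun_prop)
      (fun s => sz s.1 + sz s.2) (2 * X + 1) 8 1 (fun ⟨a, b⟩ => by simp; omega) ?_ ?_
    · rintro _ ⟨a, u, v⟩ b _
      have e2 : sz (2 : ℕ) ≤ 2 := sz_nat_le_self 2
      simp only [f]
      split_ifs
      · cases b <;> simp <;> omega
      · simp; omega
      · simp; omega
    · simp
  refine (show PT (fun x : List Bool => if (x.foldl f (0, [], [])).1 = 2 then
    [(x.foldl f (0, [], [])).2] else []) from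
      PT.ite (h1.fst.decEq (PT.const 2)) (h1.snd.cons (PT.const [])) (PT.const [])).congr
    fun x => ?_
  rw [k0 _ x [] le_rfl]
  cases undelimit x <;> simp

instance [DecPT β] [DecPT γ] : DecPT (β × γ) := ⟨by
  refine (PT.flatMap (f := fun _ (p : List Bool × List Bool) =>
    (bitDecode p.1 : Option β).toList ×ˢ (bitDecode p.2 : Option γ).toList) (by fun_prop)
    pt_undelimit).congr fun x => ?_
  show _ = Option.toList (match undelimit x with
    | none => none
    | some (block, rest) =>
      match (bitDecode block : Option β), (bitDecode rest : Option γ) with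
      | some a, some b => some (a, b)
      | _, _ => none)
  rcases undelimit x with _ | ⟨u, v⟩
  · rfl
  · simp only [Option.toList_some, List.flatMap_cons, List.flatMap_nil, List.append_nil]
    cases (bitDecode u : Option β) <;> cases (bitDecode v : Option γ) <;> rfl⟩

theorem undelimit_length : ∀ (x : List Bool) (p : List Bool × List Bool), undelimit x = some p →
    2 * p.1.length + 1 + p.2.length = x.length
  | [], _, h => by simp [undelimit] at h
  | false :: x, p, h => by
    simp only [undelimit, Option.some.injEq] at h; subst h; simp; omega
  | [true], _, h => by simp [undelimit] at h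
  | true :: b :: x, p, h => by
    simp only [undelimit, Option.map_eq_some_iff] at h
    obtain ⟨q, hq, rfl⟩ := h
    have := undelimit_length x q hq
    simp; omega

theorem pt_undelimitBlocks : PT (fun x : List Bool => (undelimitBlocks x).toList) := by
  let step : Bool × List Bool × List (List Bool) → Bool × List Bool × List (List Bool) := fun s =>
    if s.2.1 = [] then s else
      lcases (undelimit s.2.1).toList (false, [], s.2.2) fun p _ => (s.1, p.2, s.2.2 ++ [p.1])
  have hstep : PT step := by
    refine PT.ite (by fun_prop) (by fun_prop)
      (PT.lcases (pt_undelimit.comp (by fun_prop)) (by fun_prop) (by fun_prop))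
  have fix : ∀ k b u, step^[k] (b, [], u) = (b, [], u) := fun k b u =>
    iterate_fixed (by simp [step]) k
  have key : ∀ (k : ℕ) (x : List Bool) (u : List (List Bool)),
      (if (step^[k] (true, x, u)).1 = true ∧ (step^[k] (true, x, u)).2.1 = [] then
        [(step^[k] (true, x, u)).2.2] else []) =
        ((undelimitBlocksAux k x).map (u ++ ·)).toList := by
    intro k
    induction k with
    | zero => intro x u; cases x <;> simp [undelimitBlocksAux]
    | succ k ih =>
      intro x u
      rcases x with _ | ⟨b, x⟩
      · simp [fix, undelimitBlocksAux]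
      rw [iterate_succ_apply, undelimitBlocksAux]
      · rcases h : undelimit (b :: x) with _ | ⟨p, q⟩
        · have : step (true, b :: x, u) = (false, [], u) := by simp [step, h, lcases]
          simp [this, fix]
        · have : step (true, b :: x, u) = (true, q, u ++ [p]) := by simp [step, h, lcases]
          rw [this, ih, Option.bind_some]
          cases undelimitBlocksAux k q <;> simp
      · simp
  have bd : ∀ s, 2 * sz (step s).2.1 + sz (step s).2.2 ≤ 2 * sz s.2.1 + sz s.2.2 := by
    rintro ⟨b, x, u⟩
    simp only [step]
    split_ifs
    · exact le_rfl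
    · rcases h : undelimit x with _ | ⟨p, q⟩
      · simp [lcases]
      · have := undelimit_length _ _ h
        simp [lcases, sz_list_bool] at this ⊢
        omega
  have bd' : ∀ k s, 2 * sz (step^[k] s).2.1 + sz (step^[k] s).2.2 ≤ 2 * sz s.2.1 + sz s.2.2 := by
    intro k s
    induction k with
    | zero => exact le_rfl
    | succ k ih => rw [iterate_succ_apply']; exact (bd _).trans ih
  have h1 : PT (fun x : List Bool => step^[x.length] (true, x, [])) := by
    refine PT.iterate_un (f := fun _ => step) (hstep.comp (by fun_prop)) (by fun_prop) (by fun_prop)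
      ⟨2 * X + 4, fun x k _ => ?_⟩
    have := bd' k (true, x, [])
    generalize step^[k] (true, x, []) = s at this
    obtain ⟨b, y, u⟩ := s
    simp at this ⊢
    omega
  refine (PT.ite (PT.decAnd (h1.fst.decEq (PT.const true)) (h1.snd.fst.decEq (PT.const [])))
    (h1.snd.snd.cons (PT.const [])) (PT.const [])).congr fun x => ?_
  refine (key x.length x []).trans ?_
  unfold undelimitBlocks
  cases undelimitBlocksAux x.length x <;> simp

instance [DecPT β] : DecPT (List β) := ⟨by
  refine (PT.flatMap (f := fun _ (l : List (List Bool)) =>
    bif l.all (fun y => (bitDecode y : Option β).isSome) then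
      [l.flatMap fun y => (bitDecode y : Option β).toList] else []) (by fun_prop)
    pt_undelimitBlocks).congr fun x => ?_
  show _ = Option.toList ((undelimitBlocks x).bind (·.mapM bitDecode))
  rcases undelimitBlocks x with _ | l
  · rfl
  · simp only [Option.toList_some, List.flatMap_cons, List.flatMap_nil, List.append_nil,
      Option.bind_some]
    induction l with
    | nil => rfl
    | cons y l ih =>
      rw [List.mapM_cons, List.all_cons, List.flatMap_cons]
      rcases (bitDecode y : Option β) with _ | a
      · rfl
      · revert ih
        cases l.all (fun y => (bitDecode y : Option β).isSome) <;>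
          cases (l.mapM bitDecode : Option (List β)) <;> simp⟩

instance : DecPT ℤ := ⟨by
  refine (PT.map (f := fun _ (p : ℕ × ℕ) => (p.1 : ℤ) - (p.2 : ℤ)) (by fun_prop)
    (DecPT.pt (β := ℕ × ℕ))).congr fun x => ?_
  show _ = Option.toList ((bitDecode x : Option (ℕ × ℕ)).bind _)
  cases (bitDecode x : Option (ℕ × ℕ)) <;> rfl⟩

instance : DecPT ℚ := ⟨by
  refine (PT.map (f := fun _ (p : ℤ × ℕ) => (p.1 : ℚ) / (p.2 : ℚ)) (by fun_prop)
    (DecPT.pt (β := ℤ × ℕ))).congr fun x => ?_
  show _ = Option.toList ((bitDecode x : Option (ℤ × ℕ)).bind _)
  cases (bitDecode x : Option (ℤ × ℕ)) <;> rfl⟩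

end Pool.Agent.Shared.H56
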