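import Pool.Agent.Shared.H56.Lists

/-!
More closure properties of `PT`: pairing, loops with membership, encodings as lists of bits, gcd.
-/

set_option autoImplicit false

namespace Pool.Agent.Shared.H56

open Function Polynomial

variable {α β γ δ : Type} [N487b59b3 α] [N487b59b3 β] [N487b59b3 γ] [N487b59b3 δ]

@[fun_prop] theorem PT.pair {f g : α → ℕ} (hf : PT f) (hg : PT g) :
    PT (fun a => Nat.pair (f a) (g a)) := by
  unfold Nat.pair
  fun_prop

theorem PT.flatMap_mem {f g : α → β → List γ} {l : α → List β}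
    (hg : PT fun p : α × β => g p.1 p.2) (hl : PT l) (h : ∀ a, ∀ x ∈ l a, f a x = g a x) :
    PT (fun a => (l a).flatMap (f a)) :=
  (hg.flatMap hl).congr fun a => List.flatMap_congr fun x hx => (h a x hx).symm

theorem PT.map_mem {f g : α → β → γ} {l : α → List β}
    (hg : PT fun p : α × β => g p.1 p.2) (hl : PT l) (h : ∀ a, ∀ x ∈ l a, f a x = g a x) :
    PT (fun a => (l a).map (f a)) :=
  (hg.map hl).congr fun a => List.map_congr_left fun x hx => (h a x hx).symm

@[fun_prop] theorem PT.set {l : α → List β} {n : α → ℕ} {x : α → β} (hl : PT l) (hn : PT n)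
    (hx : PT x) : PT (fun a => (l a).set (n a) (x a)) :=
  (show PT (fun a => if n a < (l a).length then (l a).take (n a) ++ x a :: (l a).drop (n a + 1)
    else l a) by fun_prop).congr fun a => List.set_eq_take_append_cons_drop.symm

@[fun_prop] theorem PT.decBall {p : α → β → Prop} {l : α → List β} [∀ a x, Decidable (p a x)]
    [∀ a, Decidable (∀ x ∈ l a, p a x)] (hp : PT fun q : α × β => decide (p q.1 q.2)) (hl : PT l) :
    PT (fun a => decide (∀ x ∈ l a, p a x)) :=
  (PT.all (f := fun a x => decide (p a x)) hp hl).congr fun a => by rw [Bool.eq_iff_iff]; simp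

@[fun_prop] theorem PT.decBex {p : α → β → Prop} {l : α → List β} [∀ a x, Decidable (p a x)]
    [∀ a, Decidable (∃ x ∈ l a, p a x)] (hp : PT fun q : α × β => decide (p q.1 q.2)) (hl : PT l) :
    PT (fun a => decide (∃ x ∈ l a, p a x)) :=
  (PT.any (f := fun a x => decide (p a x)) hp hl).congr fun a => by rw [Bool.eq_iff_iff]; simp

@[fun_prop] theorem PT.boolToNat {f : α → Bool} (hf : PT f) : PT (fun a => (f a).toNat) :=
  (hf.cond (PT.const 1) (PT.const 0)).congr fun a => by cases f a <;> rfl

theorem foldl_un {σ : Type} (f : σ → σ) (n : ℕ) (s : σ) :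
    (un n).foldl (fun s _ => f s) s = f^[n] s := by
  induction n generalizing s with
  | zero => rfl
  | succ n ih => rw [iterate_succ_apply, ← ih]; rfl

/-- Iteration with a parameter and a unary counter. -/
theorem PT.iterate_un {f : α → β → β} {i : α → β} {n : α → ℕ}
    (hf : PT fun p : α × β => f p.1 p.2) (hi : PT i) (hn : PT fun a => un (n a))
    (hB : ∃ B : Polynomial ℕ, ∀ a, ∀ k ≤ n a, sz ((f a)^[k] (i a)) ≤ B.eval (sz a)) :
    PT (fun a => (f a)^[n a] (i a)) := by
  obtain ⟨B, hB⟩ := hB
  refine (PT.foldl (f := fun a s (_ : Bool) => f a s)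
    (hf.comp (g := fun p : α × β × Bool => (p.1, p.2.1)) (by fun_prop)) hi hn
    ⟨B, fun a k => ?_⟩).congr fun a => foldl_un _ _ _
  have : (un (n a)).take k = un (Min.min k (n a)) := by simp [un]
  rw [this, foldl_un]
  exact hB a _ (min_le_right _ _)

/-- Iteration whose state grows by at most a polynomial in the parameter in each step. -/
theorem PT.iterate_add {f : α → β → β} {i : α → β} {n : α → ℕ}
    (hf : PT fun p : α × β => f p.1 p.2) (hi : PT i) (hn : PT fun a => un (n a))
    (hB : ∃ Q : Polynomial ℕ, ∀ a s, sz (f a s) ≤ sz s + Q.eval (sz a)) :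
    PT (fun a => (f a)^[n a] (i a)) := by
  obtain ⟨Q, hQ⟩ := hB
  refine (PT.foldl_add (f := fun a s (_ : Bool) => f a s)
    (hf.comp (g := fun p : α × β × Bool => (p.1, p.2.1)) (by fun_prop)) hi hn
    ⟨Q, fun a s x _ => (hQ a s).trans ?_⟩).congr fun a => foldl_un _ _ _
  have := poly_mono Q (Nat.le_add_right (sz a) (sz x))
  omega

/-! ### Raw strings versus lists of bits -/

@[fun_prop] theorem PT.rawS {f : α → Raw} (hf : PT f) : PT (fun a => (f a).s) := by
  let step : Raw × List Bool → Raw × List Bool := fun s => (s.1.tl, s.2 ++ [s.1.hd])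
  have key : ∀ (k : ℕ) (x : Str), k ≤ x.length →
      step^[k] (⟨x⟩, []) = (⟨x.drop k⟩, x.take k) := by
    intro k x
    induction k with
    | zero => simp
    | succ k ih =>
      intro hk
      rw [iterate_succ_apply', ih (by omega)]
      have hk' : k < x.length := hk
      simp only [step, Raw.tl, Raw.hd, List.tail_drop, Prod.mk.injEq, true_and]
      rw [List.take_add_one, List.drop_eq_getElem_cons hk', List.getElem?_eq_getElem hk']
      rfl
  obtain ⟨B, hB⟩ := hf.size
  refine (PT.iterate (f := step) (i := fun a => (f a, [])) (by fun_prop) (by fun_prop) hf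
    ⟨5 * B + 1, fun a k hk => ?_⟩).snd.congr fun a => ?_
  · have h1 := hB a
    have h2 : sz (f a) = (f a).s.length := rfl
    rw [key k (f a).s (h2 ▸ hk)]
    have h3 : sz (⟨(f a).s.drop k⟩ : Raw) = ((f a).s.drop k).length := rfl
    simp [sz_list_bool, h3]
    omega
  · exact (congrArg Prod.snd (key _ (f a).s le_rfl)).trans (List.take_of_length_le le_rfl)

@[fun_prop] theorem PT.rawMk {l : α → List Bool} (hl : PT l) : PT (fun a => Raw.mk (l a)) := by
  have h1 : PT (fun p : α × Raw × Bool => Raw.mk (p.2.2 :: p.2.1.s)) := by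
    have h2 : PT (fun p : α × Raw × Bool => p.2.1) := by fun_prop
    have h3 : ∀ b, PT (fun p : α × Raw × Bool => Raw.mk (b :: p.2.1.s)) := fun b => Poly.cons h2 b
    exact (PT.cond (c := fun p : α × Raw × Bool => p.2.2) (by fun_prop) (h3 true) (h3 false)).congr
      fun p => by cases p.2.2 <;> rfl
  refine (PT.foldl_add (f := fun _ (r : Raw) b => Raw.mk (b :: r.s)) (i := fun _ => ⟨[]⟩) h1
    (by fun_prop) hl.reverse ⟨1, fun _ r b _ => by simp [sz, enc_raw]⟩).congr fun a => ?_
  induction l a with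
  | nil => rfl
  | cons b l ih => simp [ih]

/-- The encoding, as a list of bits. -/
@[fun_prop] theorem PT.enc {f : α → β} (hf : PT f) : PT (fun a => enc (f a)) := hf.toRaw.rawS

@[fun_prop] theorem PT.bitEncode {f : α → β} (hf : PT f) :
    PT (fun a => N487b59b3.bitEncode (f a)) := hf.enc

/-- If the encoding of `f a` is computed as a list of bits, then `f` is computed. -/
theorem PT.of_enc {f : α → β} (hf : PT fun a => H56.enc (f a)) : PT f := hf.rawMk

@[fun_prop] theorem PT.delimit {l : α → List Bool} (hl : PT l) :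
    PT (fun a => N487b59b3.delimit (l a)) :=
  PT.rawS (f := fun a => ⟨N487b59b3.delimit (l a)⟩) (Poly.delimit hl.rawMk)

/-! ### gcd and rational arithmetic -/

theorem pt_gcd : PT (fun p : ℕ × ℕ => Nat.gcd p.1 p.2) := by
  let step : ℕ × ℕ → ℕ × ℕ := fun s => if s.1 = 0 then s else (s.2 % s.1, s.1)
  have inv : ∀ s, Nat.gcd (step s).1 (step s).2 = Nat.gcd s.1 s.2 := by
    rintro ⟨a, b⟩
    simp only [step]
    split_ifs
    · rfl
    · exact (Nat.gcd_rec a b).symm
  have inv' : ∀ k s, Nat.gcd (step^[k] s).1 (step^[k] s).2 = Nat.gcd s.1 s.2 := by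
    intro k s
    induction k with
    | zero => rfl
    | succ k ih => rw [iterate_succ_apply', inv, ih]
  have half : ∀ s, (step (step s)).1 * 2 ≤ s.1 := by
    rintro ⟨a, b⟩
    simp only [step]
    by_cases h : a = 0
    · simp [h]
    · simp only [h, if_false]
      split_ifs with h2
      · simp [h2]
      · have h3 := Nat.mod_lt b (Nat.pos_of_ne_zero h)
        have h4 := Nat.mod_lt a (Nat.pos_of_ne_zero h2)
        have h5 := Nat.div_add_mod a (b % a)
        have h6 : 1 ≤ a / (b % a) := Nat.div_pos h3.le (Nat.pos_of_ne_zero h2)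
        simp only
        nlinarith
  have fin : ∀ k s, s.1 < 2 ^ k → (step^[2 * k] s).1 = 0 := by
    intro k
    induction k with
    | zero => intro s hs; simpa using hs
    | succ k ih =>
      intro s hs
      rw [show 2 * (k + 1) = 2 * k + 1 + 1 by ring, iterate_succ_apply, iterate_succ_apply]
      refine ih _ ?_
      have := half s
      rw [pow_succ] at hs
      omega
  have bd : ∀ k s, (step^[k] s).1 ≤ s.1 + s.2 ∧ (step^[k] s).2 ≤ s.1 + s.2 := by
    intro k s
    induction k with
    | zero => simp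
    | succ k ih =>
      rw [iterate_succ_apply']
      generalize step^[k] s = t at ih
      simp only [step]
      split_ifs
      · exact ih
      · exact ⟨(Nat.mod_le _ _).trans ih.2, ih.1⟩
  refine (PT.iterate_un (f := fun _ => step) (i := fun p => p) (n := fun p : ℕ × ℕ => 2 * sz p.1)
    (by fun_prop) (by fun_prop) (by fun_prop) ⟨3 * X + 4, fun ⟨a, b⟩ k _ => ?_⟩).snd.congr
    fun p => ?_
  · obtain ⟨h1, h2⟩ := bd k (a, b)
    generalize step^[k] (a, b) = t at h1 h2
    obtain ⟨x, y⟩ := t
    have e1 := (sz_nat_mono h1).trans (sz_add_le' _ _)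
    have e2 := (sz_nat_mono h2).trans (sz_add_le' _ _)
    simp at e1 e2 ⊢
    omega
  · rw [← inv' (2 * sz p.1) p, fin _ _ (lt_two_pow_sz _), Nat.gcd_zero_left]

@[fun_prop] theorem PT.gcd {f g : α → ℕ} (hf : PT f) (hg : PT g) :
    PT (fun a => Nat.gcd (f a) (g a)) := pt_gcd.comp (hf.prodMk hg)

@[fun_prop] theorem PT.sign {f : α → ℤ} (hf : PT f) : PT (fun a => (f a).sign) :=
  (show PT (fun a => if 0 < f a then (1 : ℤ) else if f a < 0 then -1 else 0) by fun_prop).congr
    fun a => by
      rcases lt_trichotomy (f a) 0 with h | h | h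
      · rw [if_neg h.not_gt, if_pos h, Int.sign_eq_neg_one_of_neg h]
      · simp [h]
      · rw [if_pos h, Int.sign_eq_one_of_pos h]

@[fun_prop] theorem PT.mkRat {f : α → ℤ} {g : α → ℕ} (hf : PT f) (hg : PT g) :
    PT (fun a => mkRat (f a) (g a)) := by
  refine (show PT (fun a => if g a = 0 then ((0 : ℤ), (1 : ℕ)) else
    ((f a).sign * (((f a).natAbs / Nat.gcd (g a) (f a).natAbs : ℕ) : ℤ),
      g a / Nat.gcd (g a) (f a).natAbs)) by fun_prop).congr' fun a => ?_
  rw [enc_rat, Rat.num_mkRat, Rat.den_mkRat]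
  split_ifs with h
  · rfl
  · congr 2
    push_cast
    rw [← Int.mul_ediv_assoc, Int.sign_mul_abs]
    rw [Int.abs_eq_natAbs]
    exact_mod_cast Nat.gcd_dvd_right _ _

@[fun_prop] theorem PT.ratAdd {f g : α → ℚ} (hf : PT f) (hg : PT g) : PT (fun a => f a + g a) :=
  (show PT (fun a => _root_.mkRat ((f a).num * (g a).den + (g a).num * (f a).den)
    ((f a).den * (g a).den)) by fun_prop).congr fun a => (Rat.add_def' _ _).symm

@[fun_prop] theorem PT.ratMul {f g : α → ℚ} (hf : PT f) (hg : PT g) : PT (fun a => f a * g a) :=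
  (show PT (fun a => _root_.mkRat ((f a).num * (g a).num) ((f a).den * (g a).den)) by
    fun_prop).congr fun a => (Rat.mul_def' _ _).symm

@[fun_prop] theorem PT.ratNeg {f : α → ℚ} (hf : PT f) : PT (fun a => -f a) :=
  ((PT.const (-1 : ℚ)).ratMul hf).congr fun a => by ring

@[fun_prop] theorem PT.ratSub {f g : α → ℚ} (hf : PT f) (hg : PT g) : PT (fun a => f a - g a) :=
  (hf.ratAdd hg.ratNeg).congr fun a => by ring

@[fun_prop] theorem PT.ratInv {f : α → ℚ} (hf : PT f) : PT (fun a => (f a)⁻¹) :=
  (show PT (fun a => _root_.mkRat ((f a).num.sign * (f a).den) (f a).num.natAbs) by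
    fun_prop).congr fun a => by
      rw [Rat.mkRat_eq_div]
      conv_rhs => rw [← Rat.num_div_den (f a), inv_div]
      rcases lt_trichotomy (f a).num 0 with h | h | h
      · rw [Int.sign_eq_neg_one_of_neg h, Nat.cast_natAbs, abs_of_neg h]; push_cast; ring
      · simp [h]
      · rw [Int.sign_eq_one_of_pos h, Nat.cast_natAbs, abs_of_pos h]; push_cast; ring

@[fun_prop] theorem PT.ratDiv {f g : α → ℚ} (hf : PT f) (hg : PT g) : PT (fun a => f a / g a) :=
  (hf.ratMul hg.ratInv).congr fun _ => (div_eq_mul_inv _ _).symm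

@[fun_prop] theorem PT.natCastRat {f : α → ℕ} (hf : PT f) : PT (fun a => (f a : ℚ)) :=
  hf.natCast.intCast.congr fun a => by simp

@[fun_prop] theorem PT.ratLt {f g : α → ℚ} [∀ a, Decidable (f a < g a)] (hf : PT f) (hg : PT g) :
    PT (fun a => decide (f a < g a)) :=
  ((PT.const 0).intLt (hg.ratSub hf).num).congr fun a => by
    rw [decide_eq_decide, Rat.num_pos, sub_pos]

@[fun_prop] theorem PT.ratLe {f g : α → ℚ} [∀ a, Decidable (f a ≤ g a)] (hf : PT f) (hg : PT g) :
    PT (fun a => decide (f a ≤ g a)) :=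
  (hg.ratLt hf).not.congr fun a => by rw [Bool.eq_iff_iff]; simp

end Pool.Agent.Shared.H56
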