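import Pool.Agent.Shared.H56.Arith

/-!
Unary numbers, `range`, powers, indexing, division, integers and rationals.
`un n` is the list of `n` ones; `PT (fun a => un (n a))` says that `n a` is computable in unary.
-/

set_option autoImplicit false

namespace Pool.Agent.Shared.H56

open Function Polynomial

variable {α β γ δ : Type} [N487b59b3 α] [N487b59b3 β] [N487b59b3 γ] [N487b59b3 δ]

/-- Unary representation. -/
def un (n : ℕ) : List Bool := List.replicate n true

@[simp] theorem length_un (n : ℕ) : (un n).length = n := by simp [un]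

@[fun_prop] theorem PT.un_length {l : α → List β} (hl : PT l) : PT (fun a => un (l a).length) :=
  (PT.map (f := fun _ _ => true) (by fun_prop) hl).congr fun a => by simp [un]

@[fun_prop] theorem PT.un_add {m n : α → ℕ} (hm : PT fun a => un (m a)) (hn : PT fun a => un (n a)) :
    PT (fun a => un (m a + n a)) :=
  (hm.append hn).congr fun a => by simp [un]

@[fun_prop] theorem PT.un_mul {m n : α → ℕ} (hm : PT fun a => un (m a)) (hn : PT fun a => un (n a)) :
    PT (fun a => un (m a * n a)) :=
  (PT.flatMap (f := fun a _ => un (n a)) (hn.comp PT.id'.fst) hm).congr fun a => by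
    simp [un, List.flatMap_replicate]

theorem PT.of_un {n : α → ℕ} (hn : PT fun a => un (n a)) : PT n :=
  hn.length.congr fun a => by simp

@[fun_prop] theorem PT.replicate {n : α → ℕ} {x : α → β} (hn : PT fun a => un (n a)) (hx : PT x) :
    PT (fun a => List.replicate (n a) (x a)) :=
  (PT.map (f := fun a _ => x a) (hx.comp PT.id'.fst) hn).congr fun a => by simp [un]

@[fun_prop] theorem PT.drop {n : α → ℕ} {l : α → List β} (hn : PT n) (hl : PT l) :
    PT (fun a => (l a).drop (n a)) := by
  have key : ∀ (t : List β) (k : ℕ) (l : List β),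
      t.foldl (fun (s : ℕ × List β) _ => if s.1 = 0 then s else (s.1 - 1, s.2.tail)) (k, l) =
        (k - t.length, l.drop (Min.min k t.length)) := by
    intro t
    induction t with
    | nil => intro k l; simp
    | cons x t ih =>
      intro k l
      rw [List.foldl_cons]
      split_ifs with h
      · simp only at h; subst h; simpa using ih 0 l
      · obtain ⟨k, rfl⟩ := Nat.exists_eq_succ_of_ne_zero h
        rw [ih]
        simp [Nat.succ_min_succ]
  obtain ⟨B, hB⟩ := hn.size
  obtain ⟨C, hC⟩ := hl.size
  refine (PT.foldl (f := fun _ (s : ℕ × List β) _ => if s.1 = 0 then s else (s.1 - 1, s.2.tail))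
    (i := fun a => (n a, l a)) (by fun_prop) (by fun_prop) hl
    ⟨2 * B + 1 + C, fun a k => ?_⟩).snd.congr fun a => ?_
  · rw [key]
    have e1 := (sz_nat_mono (Nat.sub_le (n a) ((l a).take k).length)).trans (hB a)
    have e2 := (sz_le_of_sublist (List.drop_sublist (Min.min (n a) ((l a).take k).length) (l a))).trans
      (hC a)
    simp only [sz_pair, eval_add, eval_mul, eval_ofNat, eval_one]
    omega
  · rw [key]
    rcases le_total (n a) (l a).length with h | h
    · simp [h]
    · simp [h, List.drop_of_length_le h]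

@[fun_prop] theorem PT.take {n : α → ℕ} {l : α → List β} (hn : PT n) (hl : PT l) :
    PT (fun a => (l a).take (n a)) :=
  ((hl.length.sub hn).drop hl.reverse).reverse.congr fun a => by
    rw [List.drop_reverse, List.reverse_reverse]
    rcases le_total (n a) (l a).length with h | h
    · congr 1; omega
    · rw [List.take_of_length_le h, List.take_of_length_le (by omega)]

@[fun_prop] theorem PT.getD {n : α → ℕ} {l : α → List β} {d : α → β} (hl : PT l) (hn : PT n)
    (hd : PT d) : PT (fun a => (l a).getD (n a) (d a)) :=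
  ((hn.drop hl).headD hd).congr fun a => by simp

@[fun_prop] theorem PT.un_min {m n : α → ℕ} (hm : PT m) (hn : PT fun a => un (n a)) :
    PT (fun a => un (Min.min (m a) (n a))) :=
  (hm.take hn).congr fun a => by simp [un]

@[fun_prop] theorem PT.un_sub {m n : α → ℕ} (hm : PT fun a => un (m a)) (hn : PT n) :
    PT (fun a => un (m a - n a)) :=
  (hn.drop hm).congr fun a => by simp [un]

theorem PT.un_of_le {m n : α → ℕ} (hm : PT m) (hn : PT fun a => un (n a)) (h : ∀ a, m a ≤ n a) :
    PT (fun a => un (m a)) :=
  (hm.un_min hn).congr fun a => by rw [min_eq_left (h a)]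

@[fun_prop] theorem PT.un_sz {f : α → β} (hf : PT f) : PT (fun a => un (sz (f a))) := by
  have key : ∀ k : ℕ, (fun l : List Bool => true :: l)^[k] [] = un k := by
    intro k
    induction k with
    | zero => rfl
    | succ k ih => rw [iterate_succ_apply', ih]; rfl
  obtain ⟨B, hB⟩ := hf.size
  refine (PT.iterate (f := fun l : List Bool => true :: l) (i := fun _ => []) (by fun_prop)
    (by fun_prop) hf ⟨3 * B, fun a k hk => ?_⟩).congr fun a => key _
  rw [key, sz_list_bool]
  have := hB a
  simp
  omega

theorem PT.un_poly {n : α → ℕ} (hn : PT fun a => un (n a)) (P : Polynomial ℕ) :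
    PT (fun a => un (P.eval (n a))) := by
  induction P using Polynomial.induction_on' with
  | add p q hp hq => simpa using hp.un_add hq
  | monomial k c =>
    simp only [eval_monomial]
    refine PT.un_mul (PT.const _) ?_
    induction k with
    | zero => simpa using PT.const _
    | succ k ih => simpa [pow_succ] using ih.un_mul hn

/-- A polynomial time number that is polynomially bounded is computable in unary. -/
theorem PT.un_of_bound {n : α → ℕ} (hn : PT n)
    (h : ∃ P : Polynomial ℕ, ∀ a, n a ≤ P.eval (sz a)) : PT (fun a => un (n a)) := by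
  obtain ⟨P, hP⟩ := h
  exact hn.un_of_le ((PT.un_sz PT.id').un_poly P) hP

theorem sz_range_le (k : ℕ) : sz (List.range k) ≤ k * (2 * k + 1) := by
  induction k with
  | zero => simp
  | succ k ih =>
    have := sz_nat_le_self k
    rw [List.range_succ]
    simp
    nlinarith

@[fun_prop] theorem PT.range {n : α → ℕ} (hn : PT fun a => un (n a)) :
    PT (fun a => List.range (n a)) := by
  have key : ∀ (t : List Bool) (k : ℕ),
      t.foldl (fun (s : List ℕ) _ => s ++ [s.length]) (List.range k) = List.range (k + t.length) := by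
    intro t
    induction t with
    | nil => intro k; simp
    | cons x t ih =>
      intro k
      rw [List.foldl_cons, List.length_range, ← List.range_succ, ih, List.length_cons]
      congr 1; omega
  obtain ⟨B, hB⟩ := hn.size
  refine (PT.foldl (f := fun _ (s : List ℕ) _ => s ++ [s.length]) (i := fun _ => List.range 0)
    (by fun_prop) (by fun_prop) hn ⟨B * (2 * B + 1), fun a k => ?_⟩).congr fun a => ?_
  · rw [key]
    refine (sz_range_le _).trans ?_
    have e : 0 + ((un (n a)).take k).length ≤ B.eval (sz a) := by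
      have := (length_le_sz _).trans (hB a)
      have := List.length_take_le' k (un (n a))
      omega
    simp only [eval_add, eval_mul, eval_ofNat, eval_one]
    exact Nat.mul_le_mul e (by omega)
  · rw [key]; simp

@[fun_prop] theorem PT.pow {b n : α → ℕ} (hb : PT b) (hn : PT fun a => un (n a)) :
    PT (fun a => b a ^ n a) :=
  (hn.replicate hb).prod.congr fun a => by simp

@[fun_prop] theorem PT.idxOf [BEq β] [LawfulBEq β] {x : α → β} {l : α → List β} (hx : PT x)
    (hl : PT l) : PT (fun a => (l a).idxOf (x a)) := by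
  have key : ∀ (y : β) (t : List β) (k : ℕ),
      (t.foldl (fun (s : Bool × ℕ) z => bif s.1 || z == y then (true, s.2) else (false, s.2 + 1))
        (true, k)).2 = k ∧
      (t.foldl (fun (s : Bool × ℕ) z => bif s.1 || z == y then (true, s.2) else (false, s.2 + 1))
        (false, k)).2 = k + t.idxOf y := by
    intro y t
    induction t with
    | nil => intro k; simp
    | cons z t ih =>
      intro k
      refine ⟨by simpa using (ih k).1, ?_⟩
      rw [List.foldl_cons, List.idxOf_cons]
      cases h : z == y
      · simp only [Bool.or_self, cond_false, (ih _).2]; omega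
      · simp only [Bool.or_true, cond_true, (ih _).1]; omega
  refine (PT.foldl_add
    (f := fun a (s : Bool × ℕ) z => bif s.1 || z == x a then (true, s.2) else (false, s.2 + 1))
    (i := fun _ => (false, 0)) (by fun_prop) (by fun_prop) hl
    ⟨2, fun a ⟨b, k⟩ z _ => ?_⟩).snd.congr fun a => ?_
  · have := sz_add_le' k 1
    cases (b || z == x a) <;> simp at this ⊢
    omega
  · simp [(key _ _ _).2]

@[fun_prop] theorem PT.un_idxOf [BEq β] [LawfulBEq β] {x : α → β} {l : α → List β} (hx : PT x)
    (hl : PT l) : PT (fun a => un ((l a).idxOf (x a))) :=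
  (hx.idxOf hl).un_of_le hl.un_length fun _ => List.idxOf_le_length

@[fun_prop] theorem PT.count [BEq β] [LawfulBEq β] {x : α → β} {l : α → List β} (hx : PT x)
    (hl : PT l) : PT (fun a => (l a).count (x a)) :=
  (PT.filter (f := fun a y => y == x a) (by fun_prop) hl).length.congr fun a => by
    simp [List.count, List.countP_eq_length_filter]

@[fun_prop] theorem PT.zip {l : α → List β} {l' : α → List γ} (hl : PT l) (hl' : PT l') :
    PT (fun a => (l a).zip (l' a)) := by
  refine (PT.flatMap (f := fun a i => ((l a).drop i).take 1 |>.flatMap fun x =>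
    (((l' a).drop i).take 1).map fun y => (x, y)) (l := fun a => List.range (l a).length)
    (by fun_prop) (by fun_prop)).congr fun a => ?_
  generalize l a = s
  generalize l' a = t
  induction s generalizing t with
  | nil => simp
  | cons x s ih =>
    rw [List.length_cons, List.range_succ_eq_map, List.flatMap_cons, List.flatMap_map]
    cases t with
    | nil => simp
    | cons y t => simpa using ih t

@[fun_prop] theorem PT.zipIdx {l : α → List β} (hl : PT l) : PT (fun a => (l a).zipIdx) :=
  (hl.zip (PT.range hl.un_length)).congr fun a => by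
    rw [List.zipIdx_eq_zip_range', List.range_eq_range']

@[fun_prop] theorem PT.product {l : α → List β} {l' : α → List γ} (hl : PT l) (hl' : PT l') :
    PT (fun a => l a ×ˢ l' a) :=
  PT.flatMap (f := fun a x => (l' a).map fun y => (x, y)) (by fun_prop) hl

/-- Bits of a number as a list, least significant first. -/
@[fun_prop] theorem PT.bits {n : α → ℕ} (hn : PT n) : PT (fun a => (n a).bits) := by
  let step : ℕ × List Bool → ℕ × List Bool := fun s => (s.1.div2, s.2 ++ [s.1.bodd])
  have key : ∀ (k m : ℕ), k ≤ sz m →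
      (step^[k] (m, [])).1.bits = m.bits.drop k ∧ (step^[k] (m, [])).2 = m.bits.take k := by
    intro k m
    induction k with
    | zero => simp
    | succ k ih =>
      intro hk
      obtain ⟨h1, h2⟩ := ih (by omega)
      have hk' : k < m.bits.length := by rw [sz, enc_nat] at hk; omega
      rw [iterate_succ_apply']
      generalize step^[k] (m, []) = s at h1 h2
      simp only [step, Nat.div2_bits_eq_tail, Nat.bodd_eq_bits_head, h1, h2]
      refine ⟨by simp, ?_⟩
      rw [List.take_add_one, List.drop_eq_getElem_cons hk', List.getElem?_eq_getElem hk']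
      rfl
  obtain ⟨B, hB⟩ := hn.size
  refine (PT.iterate (f := step) (i := fun a => (n a, [])) (by fun_prop) (by fun_prop) hn
    ⟨5 * B + 1, fun a k hk => ?_⟩).snd.congr fun a => ?_
  · obtain ⟨h1, h2⟩ := key k (n a) hk
    have := hB a
    generalize step^[k] (n a, []) = s at h1 h2
    obtain ⟨x, y⟩ := s
    simp only at h1 h2
    have e1 : sz x ≤ sz (n a) := by rw [sz, sz, enc_nat, enc_nat, h1]; simp
    have e2 : y.length ≤ k := by rw [h2]; simp
    simp [sz_list_bool]
    omega
  · rw [(key _ _ le_rfl).2, List.take_of_length_le (by rw [sz, enc_nat])]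

theorem ofBE_reverse_bits (n : ℕ) : ofBE n.bits.reverse = n := by
  induction n using Nat.binaryRec' with
  | zero => simp [ofBE]
  | bit b n h ih =>
    rw [Nat.bits_append_bit _ _ h]
    simp only [ofBE] at ih ⊢
    simp [List.foldl_append, ih]

theorem pt_divmod : PT (fun p : ℕ × ℕ => (p.1 / p.2, p.1 % p.2)) := by
  let f : ℕ × ℕ → ℕ × ℕ → Bool → ℕ × ℕ := fun p s b =>
    if Nat.bit b s.2 < p.2 ∨ p.2 = 0 then (Nat.bit false s.1, Nat.bit b s.2)
    else (Nat.bit true s.1, Nat.bit b s.2 - p.2)
  have key : ∀ (p : ℕ × ℕ) (t : List Bool) (m : ℕ),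
      t.foldl (f p) (m / p.2, m % p.2) =
        (t.foldl (fun n b => Nat.bit b n) m / p.2, t.foldl (fun n b => Nat.bit b n) m % p.2) := by
    rintro ⟨a, d⟩ t
    induction t with
    | nil => intro m; rfl
    | cons b t ih =>
      intro m
      rw [List.foldl_cons, List.foldl_cons, ← ih]
      congr 1
      simp only [f, Nat.bit_val]
      rcases Nat.eq_zero_or_pos d with rfl | hd
      · simp
      have h1 := Nat.div_add_mod m d
      have h2 := Nat.mod_lt m hd
      have h3 : b.toNat ≤ 1 := by cases b <;> simp
      have main : ∀ q r : ℕ, r < d → 2 * m + b.toNat = r + d * q →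
          (q, r) = ((2 * m + b.toNat) / d, (2 * m + b.toNat) % d) := by
        intro q r hr e
        rw [e, Nat.add_mul_mod_self_left, Nat.mod_eq_of_lt hr, Nat.add_mul_div_left _ _ hd,
          Nat.div_eq_of_lt hr, zero_add]
      generalize m / d = q at h1 main ⊢
      generalize m % d = r at h1 h2 main ⊢
      split_ifs with h
      · exact main _ _ (by omega) (by simp; nlinarith)
      · have h4 : d ≤ 2 * r + b.toNat := by omega
        obtain ⟨t, ht⟩ := Nat.exists_eq_add_of_le h4
        refine main _ _ (by omega) ?_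
        rw [ht, Nat.add_sub_cancel_left]
        simp; nlinarith
  have key2 : ∀ (p : ℕ × ℕ) (t : List Bool),
      t.foldl (f p) (0, 0) = (ofBE t / p.2, ofBE t % p.2) := by
    intro p t
    have := key p t 0
    simpa [ofBE] using this
  refine (PT.foldl (f := f) (i := fun _ => (0, 0)) (l := fun p => p.1.bits.reverse)
    (by fun_prop) (by fun_prop) (by fun_prop) ⟨3 * X + 1, fun ⟨a, d⟩ k => ?_⟩).congr fun p => ?_
  · rw [key2]
    have e0 : sz (ofBE (a.bits.reverse.take k)) ≤ sz a := by
      rw [sz_nat_le]
      refine (ofBE_lt _).trans_le (Nat.pow_le_pow_right (by norm_num) ?_)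
      rw [sz, enc_nat]; simp
    have e1 := sz_nat_mono (Nat.div_le_self (ofBE (a.bits.reverse.take k)) d)
    have e2 := sz_nat_mono (Nat.mod_le (ofBE (a.bits.reverse.take k)) d)
    simp
    omega
  · rw [key2, ofBE_reverse_bits]

@[fun_prop] theorem PT.div {f g : α → ℕ} (hf : PT f) (hg : PT g) : PT (fun a => f a / g a) :=
  (pt_divmod.comp (hf.prodMk hg)).fst

@[fun_prop] theorem PT.mod {f g : α → ℕ} (hf : PT f) (hg : PT g) : PT (fun a => f a % g a) :=
  (pt_divmod.comp (hf.prodMk hg)).snd

/-! ### Integers -/

theorem enc_int (z : ℤ) : enc z = enc (z.toNat, (-z).toNat) := rfl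

theorem sz_int_le (z : ℤ) : sz z ≤ 2 * sz z.natAbs + 1 := by
  rw [sz, enc_int, ← sz, sz_pair]
  rcases le_total 0 z with h | h
  · rw [show z.toNat = z.natAbs by omega, show (-z).toNat = 0 by omega]; simp
  · rw [show (-z).toNat = z.natAbs by omega, show z.toNat = 0 by omega]; simp; omega

theorem sz_natAbs_le (z : ℤ) : sz z.natAbs ≤ sz z := by
  rw [sz, sz, enc_int, ← sz, ← sz, sz_pair]
  rcases le_total 0 z with h | h
  · rw [show z.toNat = z.natAbs by omega]; omega
  · rw [show (-z).toNat = z.natAbs by omega]; omega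

@[fun_prop] theorem PT.toNat {f : α → ℤ} (hf : PT f) : PT (fun a => (f a).toNat) :=
  PT.fst (f := fun a => ((f a).toNat, (-f a).toNat)) hf

theorem PT.negToNat {f : α → ℤ} (hf : PT f) : PT (fun a => (-f a).toNat) :=
  PT.snd (f := fun a => ((f a).toNat, (-f a).toNat)) hf

theorem PT.intMk {f : α → ℤ} (h1 : PT fun a => (f a).toNat) (h2 : PT fun a => (-f a).toNat) :
    PT f := PT.prodMk h1 h2

@[fun_prop] theorem PT.natCast {f : α → ℕ} (hf : PT f) : PT (fun a => (f a : ℤ)) :=
  PT.intMk (hf.congr fun a => by simp) ((PT.const 0).congr fun a => by simp)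

@[fun_prop] theorem PT.neg {f : α → ℤ} (hf : PT f) : PT (fun a => -f a) :=
  PT.intMk hf.negToNat (hf.toNat.congr fun a => by simp)

@[fun_prop] theorem PT.natAbs {f : α → ℤ} (hf : PT f) : PT (fun a => (f a).natAbs) :=
  (hf.toNat.add hf.negToNat).congr fun a => by omega

@[fun_prop] theorem PT.intAdd {f g : α → ℤ} (hf : PT f) (hg : PT g) : PT (fun a => f a + g a) :=
  PT.intMk (((hf.toNat.add hg.toNat).sub (hf.negToNat.add hg.negToNat)).congr fun a => by omega)
    (((hf.negToNat.add hg.negToNat).sub (hf.toNat.add hg.toNat)).congr fun a => by omega)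

@[fun_prop] theorem PT.intSub {f g : α → ℤ} (hf : PT f) (hg : PT g) : PT (fun a => f a - g a) :=
  (hf.intAdd hg.neg).congr fun a => by ring

@[fun_prop] theorem PT.intMul {f g : α → ℤ} (hf : PT f) (hg : PT g) : PT (fun a => f a * g a) := by
  have key : ∀ x y : ℤ, (x * y).toNat = x.toNat * y.toNat + (-x).toNat * (-y).toNat := by
    intro x y
    rcases le_total 0 x with hx | hx <;> rcases le_total 0 y with hy | hy
    · rw [Int.toNat_mul hx hy, show (-x).toNat = 0 by omega]; simp
    · rw [show (-x).toNat = 0 by omega, show y.toNat = 0 by omega,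
        Int.toNat_eq_zero.2 (mul_nonpos_of_nonneg_of_nonpos hx hy)]; simp
    · rw [show (-y).toNat = 0 by omega, show x.toNat = 0 by omega,
        Int.toNat_eq_zero.2 (mul_nonpos_of_nonpos_of_nonneg hx hy)]; simp
    · rw [show x.toNat = 0 by omega, ← neg_mul_neg, Int.toNat_mul (by omega) (by omega)]; simp
  refine PT.intMk (((hf.toNat.mul hg.toNat).add (hf.negToNat.mul hg.negToNat)).congr fun a => ?_)
    (((hf.negToNat.mul hg.toNat).add (hf.toNat.mul hg.negToNat)).congr fun a => ?_)
  · rw [key]
  · rw [← neg_mul, key, neg_neg]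

@[fun_prop] theorem PT.intLt {f g : α → ℤ} [∀ a, Decidable (f a < g a)] (hf : PT f) (hg : PT g) :
    PT (fun a => decide (f a < g a)) :=
  ((PT.const 0).decLt (hg.intSub hf).toNat).congr fun a => by
    rw [decide_eq_decide]; omega

@[fun_prop] theorem PT.intLe {f g : α → ℤ} [∀ a, Decidable (f a ≤ g a)] (hf : PT f) (hg : PT g) :
    PT (fun a => decide (f a ≤ g a)) :=
  (hg.intLt hf).not.congr fun a => by rw [Bool.eq_iff_iff]; simp

@[fun_prop] theorem PT.intSum {l : α → List ℤ} (hl : PT l) : PT (fun a => (l a).sum) := by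
  refine (PT.foldl_pot (f := fun _ n x => n + x) (i := fun _ => 0) (by fun_prop) (by fun_prop) hl
    (fun z => sz z.natAbs) (2 * X + 1) (X + 1) 0 (fun c => by simpa using sz_int_le c)
    (fun a c x _ => ?_) (by simp)).congr fun a => ?_
  · have h1 := (sz_nat_mono (Int.natAbs_add_le c x)).trans (sz_add_le' _ _)
    have h2 := sz_natAbs_le x
    simp; omega
  · rw [List.sum_eq_foldl]

@[fun_prop] theorem PT.intProd {l : α → List ℤ} (hl : PT l) : PT (fun a => (l a).prod) := by
  refine (PT.foldl_pot (f := fun _ n x => n * x) (i := fun _ => 1) (by fun_prop) (by fun_prop) hl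
    (fun z => sz z.natAbs) (2 * X + 1) X 1 (fun c => by simpa using sz_int_le c)
    (fun a c x _ => ?_) (by simp)).congr fun a => ?_
  · have h1 := sz_mul_le c.natAbs x.natAbs
    have h2 := sz_natAbs_le x
    simp [Int.natAbs_mul]; omega
  · rw [List.prod_eq_foldl]

@[fun_prop] theorem PT.intPow {b : α → ℤ} {n : α → ℕ} (hb : PT b) (hn : PT fun a => un (n a)) :
    PT (fun a => b a ^ n a) :=
  (hn.replicate hb).intProd.congr fun a => by simp

/-! ### Rationals -/

theorem enc_rat (q : ℚ) : enc q = enc (q.num, q.den) := rfl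

@[fun_prop] theorem PT.intCast {f : α → ℤ} (hf : PT f) : PT (fun a => (f a : ℚ)) :=
  (hf.prodMk (PT.const (1 : ℕ))).congr' fun a => by rw [enc_rat]; simp

@[fun_prop] theorem PT.num {f : α → ℚ} (hf : PT f) : PT (fun a => (f a).num) :=
  PT.fst (f := fun a => ((f a).num, (f a).den)) hf

@[fun_prop] theorem PT.den {f : α → ℚ} (hf : PT f) : PT (fun a => (f a).den) :=
  PT.snd (f := fun a => ((f a).num, (f a).den)) hf

example : PT (fun p : List (ℕ × Bool) × ℕ =>
    ((List.range (p.1.length * p.1.length + 3)).map fun i =>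
      ((9 : ℤ) ^ ((p.1.map Prod.fst).idxOf i) - (p.2 : ℤ) * 2)).sum) := by
  fun_prop

end Pool.Agent.Shared.H56
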