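import Pool.Agent.Shared.H56.PT

/-!
Polynomial time arithmetic on `ℕ`, `ℤ`, and further list operations.
-/

set_option autoImplicit false

namespace Pool.Agent.Shared.H56

open Function Polynomial

variable {α β γ δ : Type} [N487b59b3 α] [N487b59b3 β] [N487b59b3 γ] [N487b59b3 δ]

theorem encodePosNum_eq (n : PosNum) : Computability.encodePosNum n = (n : ℕ).bits := by
  induction n with
  | one => simp [Computability.encodePosNum]
  | bit0 n ih =>
    rw [Computability.encodePosNum, ih, PosNum.cast_bit0, ← two_mul,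
      Nat.bit0_bits _ (PosNum.to_nat_pos n).ne']
  | bit1 n ih => rw [Computability.encodePosNum, ih, PosNum.cast_bit1, ← two_mul, Nat.bit1_bits]

theorem enc_nat (n : ℕ) : enc n = n.bits := by
  have : ∀ m : Num, Computability.encodeNum m = (m : ℕ).bits := by
    intro m
    cases m with
    | zero => simp [Computability.encodeNum]
    | pos m => exact encodePosNum_eq m
  show Computability.encodeNum (n : Num) = _
  rw [this, Num.to_of_nat]

theorem sz_nat (n : ℕ) : sz n = n.size := by rw [sz, enc_nat, Nat.size_eq_bits_len]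

theorem lt_two_pow_sz (n : ℕ) : n < 2 ^ sz n := by rw [sz_nat]; exact Nat.lt_size_self n

theorem sz_nat_le {n k : ℕ} : sz n ≤ k ↔ n < 2 ^ k := by rw [sz_nat, Nat.size_le]

theorem sz_nat_mono {m n : ℕ} (h : m ≤ n) : sz m ≤ sz n := by
  rw [sz_nat, sz_nat]; exact Nat.size_le_size h

theorem sz_nat_le_self (n : ℕ) : sz n ≤ n := sz_nat_le.2 Nat.lt_two_pow_self

@[simp] theorem sz_zero : sz (0 : ℕ) = 0 := by rw [sz_nat]; rfl
@[simp] theorem sz_one : sz (1 : ℕ) = 1 := by rw [sz_nat]; rfl

theorem sz_mul_le (m n : ℕ) : sz (m * n) ≤ sz m + sz n := by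
  rw [sz_nat_le, pow_add]
  exact Nat.mul_lt_mul'' (lt_two_pow_sz m) (lt_two_pow_sz n)

theorem sz_add_le (m n : ℕ) : sz (m + n) ≤ max (sz m) (sz n) + 1 := by
  rw [sz_nat_le, pow_succ]
  have h1 := (lt_two_pow_sz m).trans_le
    (Nat.pow_le_pow_right (by norm_num : 2 > 0) (le_max_left (sz m) (sz n)))
  have h2 := (lt_two_pow_sz n).trans_le
    (Nat.pow_le_pow_right (by norm_num : 2 > 0) (le_max_right (sz m) (sz n)))
  omega

theorem sz_add_le' (m n : ℕ) : sz (m + n) ≤ sz m + sz n + 1 := by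
  have := sz_add_le m n; omega

theorem sz_bit_le (b : Bool) (n : ℕ) : sz (Nat.bit b n) ≤ sz n + 1 := by
  rw [sz_nat_le, pow_succ, Nat.bit_val]
  have := lt_two_pow_sz n
  cases b <;> simp <;> omega

@[fun_prop] theorem PT.div2 {f : α → ℕ} (hf : PT f) : PT (fun a => (f a).div2) :=
  (Poly.tail hf).congr fun a => by simp only [enc_nat, Nat.div2_bits_eq_tail]

@[fun_prop] theorem PT.bodd {f : α → ℕ} (hf : PT f) : PT (fun a => (f a).bodd) :=
  hf.toRaw.rawHd.congr fun a => by
    simp only [Raw.hd, H56.toRaw, enc_nat, Nat.bodd_eq_bits_head]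
    cases (f a).bits <;> rfl

@[fun_prop] theorem PT.bit {b : α → Bool} {f : α → ℕ} (hb : PT b) (hf : PT f) :
    PT (fun a => Nat.bit (b a) (f a)) := by
  have h1 : PT (fun a => Nat.bit true (f a)) :=
    (Poly.cons hf true).congr fun a => by
      simp only [enc_nat]; rw [Nat.bits_append_bit _ _ (fun _ => rfl)]
  have h0 : PT (fun a => Nat.bit false (f a)) := by
    refine Poly.cases hf ?_ ?_ ?_
    · exact (Poly.nil _).congr fun a => by
        have h : f a.1 = 0 := enc_inj (a.2.trans (by simp [enc_nat]))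
        simp [h, enc_nat]
    · exact (Poly.cons (Poly.precomp hf Subtype.val) false).congr fun a => by
        have h : f a.1 ≠ 0 := fun h => by have := a.2; simp [h, enc_nat] at this
        simp only [enc_nat]; rw [Nat.bits_append_bit _ _ (fun h' => absurd h' h)]
    · exact (Poly.cons (Poly.precomp hf Subtype.val) false).congr fun a => by
        have h : f a.1 ≠ 0 := fun h => by have := a.2; simp [h, enc_nat] at this
        simp only [enc_nat]; rw [Nat.bits_append_bit _ _ (fun h' => absurd h' h)]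
  exact (hb.cond h1 h0).congr fun a => by cases b a <;> rfl

/-- Value of a big-endian list of bits. -/
def ofBE (l : List Bool) : ℕ := l.foldl (fun n b => Nat.bit b n) 0

@[fun_prop] theorem PT.ofBE {l : α → List Bool} (hl : PT l) : PT (fun a => ofBE (l a)) :=
  PT.foldl_add (f := fun _ n b => Nat.bit b n) (i := fun _ => 0) (by fun_prop) (by fun_prop) hl
    ⟨1, fun _ c x _ => by simpa using sz_bit_le x c⟩

theorem ofBE_cons (b : Bool) (l : List Bool) :
    ofBE (b :: l) = b.toNat * 2 ^ l.length + ofBE l := by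
  have : ∀ (l : List Bool) (n : ℕ),
      l.foldl (fun n b => Nat.bit b n) n = n * 2 ^ l.length + ofBE l := by
    intro l
    induction l with
    | nil => intro n; simp [ofBE]
    | cons c l ih =>
      intro n
      simp only [ofBE, List.foldl_cons, List.length_cons]
      rw [ih, ih (Nat.bit c 0), Nat.bit_val, Nat.bit_val]
      ring
  simp only [ofBE, List.foldl_cons] at this ⊢
  rw [this, Nat.bit_val]
  simp

theorem ofBE_lt (l : List Bool) : ofBE l < 2 ^ l.length := by
  induction l with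
  | nil => simp [ofBE]
  | cons b l ih => rw [ofBE_cons, List.length_cons, pow_succ]; cases b <;> simp <;> omega

/-- One step of a digit loop with carry. -/
def dstep (g h : Bool → Bool → Bool → Bool) (s : ℕ × ℕ × Bool × List Bool) :
    ℕ × ℕ × Bool × List Bool :=
  (s.1.div2, s.2.1.div2, g s.1.bodd s.2.1.bodd s.2.2.1, h s.1.bodd s.2.1.bodd s.2.2.1 :: s.2.2.2)

theorem pt_bool3 (g : Bool → Bool → Bool → Bool) {x y z : α → Bool} (hx : PT x) (hy : PT y)
    (hz : PT z) : PT (fun a => g (x a) (y a) (z a)) := by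
  have h1 : ∀ u v, PT (fun a => g u v (z a)) := fun u v =>
    (hz.cond (PT.const (g u v true)) (PT.const (g u v false))).congr fun a => by
      cases z a <;> rfl
  have h2 : ∀ u, PT (fun a => g u (y a) (z a)) := fun u =>
    (hy.cond (h1 u true) (h1 u false)).congr fun a => by cases y a <;> rfl
  exact (hx.cond (h2 true) (h2 false)).congr fun a => by cases x a <;> rfl

theorem dstep_shape (g h : Bool → Bool → Bool → Bool) (a b k : ℕ) :
    ((dstep g h)^[k] (a, b, false, [])).1 = a / 2 ^ k ∧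
    ((dstep g h)^[k] (a, b, false, [])).2.1 = b / 2 ^ k ∧
    ((dstep g h)^[k] (a, b, false, [])).2.2.2.length = k := by
  induction k with
  | zero => simp
  | succ k ih =>
    rw [iterate_succ_apply']
    obtain ⟨h1, h2, h3⟩ := ih
    simp [dstep, h1, h2, h3, Nat.div2_val, pow_succ, Nat.div_div_eq_div_mul]

theorem sz_list_bool (l : List Bool) : sz l = 3 * l.length := by
  induction l with
  | nil => simp
  | cons b l ih => simp [ih]; omega

theorem pt_dloop (g h : Bool → Bool → Bool → Bool) :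
    PT (fun p : ℕ × ℕ => (dstep g h)^[sz p] (p.1, p.2, false, [])) := by
  have hstep : PT (dstep g h) := by
    have h1 : PT fun s : ℕ × ℕ × Bool × List Bool => g s.1.bodd s.2.1.bodd s.2.2.1 :=
      pt_bool3 g (by fun_prop) (by fun_prop) (by fun_prop)
    have h2 : PT fun s : ℕ × ℕ × Bool × List Bool => h s.1.bodd s.2.1.bodd s.2.2.1 :=
      pt_bool3 h (by fun_prop) (by fun_prop) (by fun_prop)
    exact PT.prodMk (by fun_prop) (PT.prodMk (by fun_prop) (PT.prodMk h1 (PT.cons h2 (by fun_prop))))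
  refine PT.iterate (c := fun p => p) hstep (by fun_prop) (by fun_prop)
    ⟨7 * X + 9, fun ⟨a, b⟩ k hk => ?_⟩
  obtain ⟨h1, h2, h3⟩ := dstep_shape g h a b k
  generalize (dstep g h)^[k] (a, b, false, []) = s at h1 h2 h3
  obtain ⟨x, y, c, l⟩ := s
  simp only at h1 h2 h3
  have e1 : sz x ≤ sz a := sz_nat_mono (h1 ▸ Nat.div_le_self _ _)
  have e2 : sz y ≤ sz b := sz_nat_mono (h2 ▸ Nat.div_le_self _ _)
  simp [sz_list_bool] at hk ⊢
  omega

theorem div_pow_sz_eq_zero {a k : ℕ} (h : sz a ≤ k) : a / 2 ^ k = 0 :=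
  Nat.div_eq_of_lt (sz_nat_le.1 h)

theorem div2_bodd (n : ℕ) : n = 2 * n.div2 + n.bodd.toNat := by
  have := Nat.bodd_add_div2 n; omega

def maj (x y z : Bool) : Bool := (x && y) || (x && z) || (y && z)
def xor3 (x y z : Bool) : Bool := xor (xor x y) z
def brw (x y z : Bool) : Bool := maj (!x) y z

theorem pt_add : PT (fun p : ℕ × ℕ => p.1 + p.2) := by
  have key : ∀ a b k : ℕ, ∀ s, s = (dstep maj xor3)^[k] (a, b, false, []) →
      ofBE s.2.2.2 + 2 ^ k * (s.1 + s.2.1 + s.2.2.1.toNat) = a + b := by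
    intro a b k
    induction k with
    | zero => rintro s rfl; simp [ofBE]
    | succ k ih =>
      rintro s rfl
      have h3 := (dstep_shape maj xor3 a b k).2.2
      rw [iterate_succ_apply', ← ih _ rfl]
      generalize (dstep maj xor3)^[k] (a, b, false, []) = s at h3
      obtain ⟨x, y, c, l⟩ := s
      simp only [dstep, ofBE_cons] at h3 ⊢
      rw [h3]
      conv_rhs => rw [div2_bodd x, div2_bodd y]
      cases x.bodd <;> cases y.bodd <;> cases c <;> simp [maj, xor3] <;> ring
  refine (pt_dloop maj xor3).snd.snd.snd.ofBE.congr fun ⟨a, b⟩ => ?_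
  have h := key a b _ _ (rfl : _ = (dstep maj xor3)^[sz (a, b)] (a, b, false, []))
  obtain ⟨h1, h2, -⟩ := dstep_shape maj xor3 a b (sz (a, b))
  rw [div_pow_sz_eq_zero (by simp; omega)] at h1
  rw [div_pow_sz_eq_zero (by simp)] at h2
  rw [h1, h2] at h
  have h4 : a + b < 2 ^ sz (a, b) := sz_nat_le.1 ((sz_add_le' a b).trans (by simp; omega))
  generalize ((dstep maj xor3)^[sz (a, b)] (a, b, false, [])).2.2.1 = c at h
  generalize sz (a, b) = k at h h4 ⊢
  cases c
  · simpa using h
  · simp at h; omega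

@[fun_prop] theorem PT.add {f g : α → ℕ} (hf : PT f) (hg : PT g) : PT (fun a => f a + g a) :=
  pt_add.comp (hf.prodMk hg)

theorem sub_key (a b : ℕ) : ∀ s, s = (dstep brw xor3)^[sz (a, b)] (a, b, false, []) →
    s.2.2.1 = decide (a < b) ∧ (b ≤ a → ofBE s.2.2.2 = a - b) := by
  have key : ∀ k : ℕ, ∀ s, s = (dstep brw xor3)^[k] (a, b, false, []) →
      ofBE s.2.2.2 + 2 ^ k * s.1 + b = a + 2 ^ k * (s.2.1 + s.2.2.1.toNat) := by
    intro k
    induction k with
    | zero => rintro s rfl; simp [ofBE]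
    | succ k ih =>
      rintro s rfl
      have h3 := (dstep_shape brw xor3 a b k).2.2
      have h4 := ih _ rfl
      rw [iterate_succ_apply']
      generalize (dstep brw xor3)^[k] (a, b, false, []) = s at h3 h4
      obtain ⟨x, y, c, l⟩ := s
      simp only [dstep, ofBE_cons] at h3 h4 ⊢
      rw [h3]
      rw [div2_bodd x, div2_bodd y] at h4
      generalize x.bodd = p at h4 ⊢
      generalize y.bodd = q at h4 ⊢
      rw [pow_succ]
      cases p <;> cases q <;> cases c <;> simp [maj, xor3, brw] at h4 ⊢ <;> nlinarith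
  rintro s rfl
  have h := key _ _ (rfl : _ = (dstep brw xor3)^[sz (a, b)] (a, b, false, []))
  obtain ⟨h1, h2, h3⟩ := dstep_shape brw xor3 a b (sz (a, b))
  rw [div_pow_sz_eq_zero (by simp; omega)] at h1
  rw [div_pow_sz_eq_zero (by simp)] at h2
  rw [h1, h2] at h
  have h4 := ofBE_lt ((dstep brw xor3)^[sz (a, b)] (a, b, false, [])).2.2.2
  rw [h3] at h4
  generalize ((dstep brw xor3)^[sz (a, b)] (a, b, false, [])).2.2.1 = c at h
  generalize sz (a, b) = k at h h4 ⊢
  cases c <;> simp at h ⊢ <;> omega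

theorem pt_lt : PT (fun p : ℕ × ℕ => decide (p.1 < p.2)) :=
  (pt_dloop brw xor3).snd.snd.fst.congr fun ⟨a, b⟩ => (sub_key a b _ rfl).1

@[fun_prop] theorem PT.decLt {f g : α → ℕ} [∀ a, Decidable (f a < g a)] (hf : PT f) (hg : PT g) :
    PT (fun a => decide (f a < g a)) :=
  (pt_lt.comp (hf.prodMk hg)).congr fun a => by simp

@[fun_prop] theorem PT.decLe {f g : α → ℕ} [∀ a, Decidable (f a ≤ g a)] (hf : PT f) (hg : PT g) :
    PT (fun a => decide (f a ≤ g a)) :=
  (hg.decLt hf).not.congr fun a => by rw [Bool.eq_iff_iff]; simp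

theorem pt_sub : PT (fun p : ℕ × ℕ => p.1 - p.2) := by
  have h := (pt_dloop brw xor3).snd.snd.snd.ofBE
  refine (PT.ite (p := fun p : ℕ × ℕ => p.1 < p.2) (by fun_prop) (PT.const 0) h).congr
    fun ⟨a, b⟩ => ?_
  split_ifs with h1
  · simp at h1 ⊢; omega
  · exact (sub_key a b _ rfl).2 (by simpa using h1)

@[fun_prop] theorem PT.sub {f g : α → ℕ} (hf : PT f) (hg : PT g) : PT (fun a => f a - g a) :=
  pt_sub.comp (hf.prodMk hg)

theorem pt_mul : PT (fun p : ℕ × ℕ => p.1 * p.2) := by
  let step : ℕ × ℕ × ℕ → ℕ × ℕ × ℕ := fun s =>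
    (Nat.bit false s.1, s.2.1.div2, bif s.2.1.bodd then s.2.2 + s.1 else s.2.2)
  have hstep : PT step := by fun_prop
  have key : ∀ a b k : ℕ, step^[k] (a, b, 0) = (2 ^ k * a, b / 2 ^ k, a * (b % 2 ^ k)) := by
    intro a b k
    induction k with
    | zero => simp [Nat.mod_one]
    | succ k ih =>
      rw [iterate_succ_apply', ih]
      simp only [step, Nat.bit_val, Nat.div2_val, Prod.mk.injEq]
      refine ⟨by simp; ring, by rw [pow_succ, Nat.div_div_eq_div_mul], ?_⟩
      rw [Nat.mod_pow_succ, Nat.mod_two_of_bodd]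
      cases (b / 2 ^ k).bodd
      · simp
      · simp; ring
  have := PT.iterate (i := fun p : ℕ × ℕ => (p.1, p.2, 0)) (c := fun p => p.2) hstep
    (by fun_prop) (by fun_prop) ⟨8 * X + 4, fun ⟨a, b⟩ k hk => by
      rw [key]
      have e1 : sz (2 ^ k * a) ≤ k + 1 + sz a := (sz_mul_le _ _).trans (by
        rw [sz_nat (2 ^ k), Nat.size_pow])
      have e2 : sz (b / 2 ^ k) ≤ sz b := sz_nat_mono (Nat.div_le_self _ _)
      have e3 : sz (a * (b % 2 ^ k)) ≤ sz a + sz b :=
        (sz_mul_le _ _).trans (by have := sz_nat_mono (Nat.mod_le b (2 ^ k)); omega)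
      simp at hk ⊢
      omega⟩
  refine this.snd.snd.congr fun ⟨a, b⟩ => ?_
  rw [key, Nat.mod_eq_of_lt (lt_two_pow_sz b)]

@[fun_prop] theorem PT.mul {f g : α → ℕ} (hf : PT f) (hg : PT g) : PT (fun a => f a * g a) :=
  pt_mul.comp (hf.prodMk hg)

@[fun_prop] theorem PT.succ {f : α → ℕ} (hf : PT f) : PT (fun a => (f a).succ) :=
  hf.add (PT.const 1)

@[fun_prop] theorem PT.min {f g : α → ℕ} (hf : PT f) (hg : PT g) : PT (fun a => min (f a) (g a)) :=
  (PT.ite (hf.decLe hg) hf hg).congr fun _ => (min_def _ _).symm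

@[fun_prop] theorem PT.max {f g : α → ℕ} (hf : PT f) (hg : PT g) : PT (fun a => max (f a) (g a)) :=
  (PT.ite (hf.decLe hg) hg hf).congr fun _ => (max_def _ _).symm

@[fun_prop] theorem PT.length {l : α → List β} (hl : PT l) : PT (fun a => (l a).length) := by
  refine (PT.foldl_add (f := fun _ n _ => n + 1) (i := fun _ => 0) (by fun_prop) (by fun_prop) hl
    ⟨2, fun _ c x _ => by have := sz_add_le' c 1; simp at this ⊢; omega⟩).congr fun a => ?_
  simp

@[fun_prop] theorem PT.sum {l : α → List ℕ} (hl : PT l) : PT (fun a => (l a).sum) := by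
  refine (PT.foldl_add (f := fun _ n x => n + x) (i := fun _ => 0) (by fun_prop) (by fun_prop) hl
    ⟨X + 1, fun _ c x _ => ?_⟩).congr fun a => ?_
  · have := sz_add_le' c x; simp; omega
  · rw [List.sum_eq_foldl]

@[fun_prop] theorem PT.prod {l : α → List ℕ} (hl : PT l) : PT (fun a => (l a).prod) := by
  refine (PT.foldl_add (f := fun _ n x => n * x) (i := fun _ => 1) (by fun_prop) (by fun_prop) hl
    ⟨X, fun _ c x _ => ?_⟩).congr fun a => ?_
  · have := sz_mul_le c x; simp; omega
  · rw [List.prod_eq_foldl]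

end Pool.Agent.Shared.H56
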