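import Pool.Agent.Shared.H56.Poly

/-!
Typed polynomial time functions `PT f` over the bit encodings of the Prelude, with `fun_prop` support.
-/

set_option autoImplicit false

namespace Pool.Agent.Shared.H56

open Function Polynomial

/-- The encoding of the Prelude. -/
def enc {α : Type} [N487b59b3 α] (a : α) : Str := N487b59b3.bitEncode a

/-- The length of the encoding. -/
def sz {α : Type} [N487b59b3 α] (a : α) : ℕ := (enc a).length

variable {α β γ δ : Type} [N487b59b3 α] [N487b59b3 β] [N487b59b3 γ] [N487b59b3 δ]

theorem enc_inj {a b : α} (h : enc a = enc b) : a = b := N487b59b3.bitEncode_injective h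

theorem enc_pair (a : α) (b : β) : enc (a, b) = N487b59b3.delimit (enc a) ++ enc b := rfl
theorem enc_nil : enc ([] : List α) = [] := rfl
theorem enc_cons (a : α) (l : List α) : enc (a :: l) = N487b59b3.delimit (enc a) ++ enc l := rfl
theorem enc_bool (b : Bool) : enc b = [b] := rfl
theorem enc_append (l l' : List α) : enc (l ++ l') = enc l ++ enc l' := by
  induction l with
  | nil => rfl
  | cons a l ih => simp [enc_cons, ih]

@[simp] theorem sz_pair (a : α) (b : β) : sz (a, b) = 2 * sz a + 1 + sz b := by
  simp [sz, enc_pair]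
@[simp] theorem sz_nil : sz ([] : List α) = 0 := rfl
@[simp] theorem sz_cons (a : α) (l : List α) : sz (a :: l) = 2 * sz a + 1 + sz l := by
  simp [sz, enc_cons]
@[simp] theorem sz_bool (b : Bool) : sz b = 1 := rfl
@[simp] theorem sz_append (l l' : List α) : sz (l ++ l') = sz l + sz l' := by
  simp [sz, enc_append]

theorem length_le_sz (l : List α) : l.length ≤ sz l := by
  induction l with
  | nil => simp
  | cons a l ih => simp; omega

theorem sz_le_of_mem {a : α} {l : List α} (h : a ∈ l) : sz a ≤ sz l := by
  induction l with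
  | nil => simp at h
  | cons b l ih =>
    rcases List.mem_cons.1 h with rfl | h
    · simp; omega
    · have := ih h; simp; omega

theorem sz_le_of_sublist {l l' : List α} (h : l.Sublist l') : sz l ≤ sz l' := by
  induction h with
  | slnil => simp
  | cons a _ ih => simp; omega
  | cons_cons a _ ih => simp; omega

@[simp] theorem sz_reverse (l : List α) : sz l.reverse = sz l := by
  induction l with
  | nil => simp
  | cons a l ih => simp [ih]; omega

theorem enc_eq_nil {l : List α} (h : enc l = []) : l = [] := enc_inj (h.trans enc_nil.symm)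

/-- `f` is computable in polynomial time on encodings. -/
@[fun_prop]
def PT (f : α → β) : Prop := Poly enc (fun a => enc (f a))

theorem PT.isPolyTime {f : α → β} (h : PT f) : N68a2faeb.IsPolyTime f := Poly.tm2 h

theorem PT.size {f : α → β} (h : PT f) : ∃ B : Polynomial ℕ, ∀ a, sz (f a) ≤ B.eval (sz a) :=
  Poly.size h

theorem PT.congr {f g : α → β} (h : PT f) (e : ∀ a, f a = g a) : PT g := by
  rwa [← funext e]

/-- Change the output type when the encodings agree. -/
theorem PT.congr' {f : α → β} {g : α → γ} (h : PT f) (e : ∀ a, enc (f a) = enc (g a)) : PT g :=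
  Poly.congr h e

@[fun_prop] theorem PT.id' : PT (fun a : α => a) := Poly.refl _

@[fun_prop] theorem PT.const (c : β) : PT (fun _ : α => c) := Poly.const _ _

@[fun_prop] theorem PT.comp {f : β → γ} {g : α → β} (hf : PT f) (hg : PT g) :
    PT (fun a => f (g a)) := Poly.trans hg (Poly.precomp hf g)

@[fun_prop] theorem PT.prodMk {f : α → β} {g : α → γ} (hf : PT f) (hg : PT g) :
    PT (fun a => (f a, g a)) := Poly.append (Poly.delimit hf) hg

@[fun_prop] theorem PT.fst {f : α → β × γ} (hf : PT f) : PT (fun a => (f a).1) :=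
  Poly.fst (w := fun a => enc (f a).2) hf

@[fun_prop] theorem PT.snd {f : α → β × γ} (hf : PT f) : PT (fun a => (f a).2) :=
  Poly.snd (v := fun a => enc (f a).1) hf

@[fun_prop] theorem PT.cond {c : α → Bool} {f g : α → β} (hc : PT c) (hf : PT f) (hg : PT g) :
    PT (fun a => bif c a then f a else g a) := by
  refine Poly.cases hc ?_ ?_ ?_
  · exact (Poly.precomp hf Subtype.val).congr fun a => absurd a.2 (by simp [enc_bool])
  · exact (Poly.precomp hg Subtype.val).congr fun a => by
      have : c a.1 = false := by simpa [enc_bool] using a.2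
      simp [this]
  · exact (Poly.precomp hf Subtype.val).congr fun a => by
      have : c a.1 = true := by simpa [enc_bool] using a.2
      simp [this]

@[fun_prop] theorem PT.ite {p : α → Prop} [DecidablePred p] {f g : α → β}
    (hp : PT (fun a => decide (p a))) (hf : PT f) (hg : PT g) :
    PT (fun a => if p a then f a else g a) :=
  (hp.cond hf hg).congr fun a => by by_cases h : p a <;> simp [h]

@[fun_prop] theorem PT.not {f : α → Bool} (hf : PT f) : PT (fun a => !f a) :=
  (hf.cond (PT.const false) (PT.const true)).congr fun a => by cases f a <;> rfl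

@[fun_prop] theorem PT.and {f g : α → Bool} (hf : PT f) (hg : PT g) : PT (fun a => f a && g a) :=
  (hf.cond hg (PT.const false)).congr fun a => by cases f a <;> rfl

@[fun_prop] theorem PT.or {f g : α → Bool} (hf : PT f) (hg : PT g) : PT (fun a => f a || g a) :=
  (hf.cond (PT.const true) hg).congr fun a => by cases f a <;> rfl

@[fun_prop] theorem PT.xor {f g : α → Bool} (hf : PT f) (hg : PT g) : PT (fun a => xor (f a) (g a)) :=
  (hf.cond hg.not hg).congr fun a => by cases f a <;> simp

@[fun_prop] theorem PT.cons {f : α → β} {l : α → List β} (hf : PT f) (hl : PT l) :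
    PT (fun x => f x :: l x) := PT.prodMk hf hl

@[fun_prop] theorem PT.append {l l' : α → List β} (hl : PT l) (hl' : PT l') :
    PT (fun a => l a ++ l' a) :=
  (Poly.append hl hl').congr fun _ => (enc_append _ _).symm

/-- Case distinction on a list. -/
def lcases {β γ : Type} (l : List β) (n : γ) (c : β → List β → γ) : γ :=
  match l with
  | [] => n
  | x :: xs => c x xs

theorem PT.lcases {l : α → List β} {n : α → γ} {c : α → β → List β → γ} (hl : PT l) (hn : PT n)
    (hc : PT fun p : α × β × List β => c p.1 p.2.1 p.2.2) :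
    PT (fun a => lcases (l a) (n a) (c a)) := by
  have key : ∀ P : α → Prop, (∀ a, P a → l a ≠ []) →
      Poly (fun a : {a // P a} => enc a.1) (fun a => enc (H56.lcases (l a.1) (n a.1) (c a.1))) := by
    intro P hP
    have h1 := Poly.precomp (PT.prodMk PT.id' hl) (Subtype.val : {a // P a} → α)
    have h2 := Poly.precomp hc
      (fun a : {a // P a} => (a.1, (l a.1).head (hP _ a.2), (l a.1).tail))
    refine ((h1.congr fun a => ?_).trans h2).congr fun a => ?_
    · have := List.cons_head_tail (hP _ a.2)
      beta_reduce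
      conv_lhs => rw [← this]
      rfl
    · have := List.cons_head_tail (hP _ a.2)
      beta_reduce
      conv_rhs => rw [← this]
      rfl
  refine Poly.cases hl ?_ (key _ ?_) (key _ ?_)
  · exact (Poly.precomp hn Subtype.val).congr fun a => by
      beta_reduce; rw [enc_eq_nil a.2]; rfl
  · intro a h e; simp [e, enc_nil] at h
  · intro a h e; simp [e, enc_nil] at h

@[fun_prop] theorem PT.tail {l : α → List β} (hl : PT l) : PT (fun a => (l a).tail) :=
  (PT.lcases (c := fun _ _ xs => xs) hl (PT.const []) (by fun_prop)).congr fun a => by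
    cases l a <;> rfl

@[fun_prop] theorem PT.headD {l : α → List β} {d : α → β} (hl : PT l) (hd : PT d) :
    PT (fun a => (l a).headD (d a)) :=
  (PT.lcases (c := fun _ x _ => x) hl hd (by fun_prop)).congr fun a => by
    cases l a <;> rfl

@[fun_prop] theorem PT.isEmpty {l : α → List β} (hl : PT l) : PT (fun a => (l a).isEmpty) :=
  (PT.lcases (c := fun _ _ _ => false) hl (PT.const true) (by fun_prop)).congr fun a => by
    cases l a <;> rfl

/-- Iterate `f` as many times as the encoding of `c a` has bits. -/
theorem PT.iterate {σ : Type} [N487b59b3 σ] {f : σ → σ} {i : α → σ} {c : α → β}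
    (hf : PT f) (hi : PT i) (hc : PT c)
    (hB : ∃ B : Polynomial ℕ, ∀ a, ∀ k ≤ sz (c a), sz (f^[k] (i a)) ≤ B.eval (sz a)) :
    PT (fun a => f^[sz (c a)] (i a)) := Poly.iterate hf hi hc hB

theorem PT.foldl {f : α → γ → β → γ} {i : α → γ} {l : α → List β}
    (hf : PT fun p : α × γ × β => f p.1 p.2.1 p.2.2) (hi : PT i) (hl : PT l)
    (hB : ∃ B : Polynomial ℕ, ∀ a k, sz (((l a).take k).foldl (f a) (i a)) ≤ B.eval (sz a)) :
    PT (fun a => (l a).foldl (f a) (i a)) := by
  let step : α × γ × List β → α × γ × List β := fun s =>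
    H56.lcases s.2.2 s (fun x xs => (s.1, f s.1 s.2.1 x, xs))
  have hstep : PT step := by
    refine PT.lcases (by fun_prop) (by fun_prop) ?_
    have : PT fun p : (α × γ × List β) × β × List β => f p.1.1 p.1.2.1 p.2.1 :=
      hf.comp (g := fun p : (α × γ × List β) × β × List β => (p.1.1, p.1.2.1, p.2.1)) (by fun_prop)
    fun_prop
  have key : ∀ (k : ℕ) (a : α) (c : γ) (l : List β),
      step^[k] (a, c, l) = (a, (l.take k).foldl (f a) c, l.drop k) := by
    intro k
    induction k with
    | zero => intro a c l; simp
    | succ k ih =>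
      intro a c l
      rw [iterate_succ_apply]
      cases l with
      | nil => simpa [step, H56.lcases] using ih a c []
      | cons x xs => simpa [step, H56.lcases] using ih a (f a c x) xs
  obtain ⟨B, hB⟩ := hB
  obtain ⟨C, hC⟩ := hl.size
  have := PT.iterate (i := fun a => (a, i a, l a)) hstep (by fun_prop) hl
    ⟨2 * X + 2 * B + C + 2, fun a k _ => by
      rw [key]
      have h1 := hB a k
      have h2 := hC a
      have h3 := sz_le_of_sublist (List.drop_sublist k (l a))
      simp
      omega⟩
  refine this.snd.fst.congr fun a => ?_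
  rw [key, List.take_of_length_le (length_le_sz _)]

/-- `foldl` with a potential function `μ` that grows additively. -/
theorem PT.foldl_pot {f : α → γ → β → γ} {i : α → γ} {l : α → List β}
    (hf : PT fun p : α × γ × β => f p.1 p.2.1 p.2.2) (hi : PT i) (hl : PT l)
    (μ : γ → ℕ) (P Q R : Polynomial ℕ) (h1 : ∀ c, sz c ≤ P.eval (μ c))
    (h2 : ∀ a c x, x ∈ l a → μ (f a c x) ≤ μ c + Q.eval (sz a + sz x))
    (h3 : ∀ a, μ (i a) ≤ R.eval (sz a)) :
    PT (fun a => (l a).foldl (f a) (i a)) := by
  obtain ⟨C, hC⟩ := hl.size
  refine PT.foldl hf hi hl ⟨P.comp (R + C * Q.comp (X + C)), fun a k => ?_⟩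
  have key : ∀ (l' : List β) (c : γ), (∀ x ∈ l', x ∈ l a) →
      μ (l'.foldl (f a) c) ≤ μ c + l'.length * Q.eval (sz a + C.eval (sz a)) := by
    intro l'
    induction l' with
    | nil => intro c _; simp
    | cons x xs ih =>
      intro c hx
      have e1 := ih (f a c x) (fun y hy => hx y (List.mem_cons_of_mem _ hy))
      have hx' := hx x List.mem_cons_self
      have e2 := h2 a c x hx'
      have e3 : Q.eval (sz a + sz x) ≤ Q.eval (sz a + C.eval (sz a)) :=
        poly_mono Q (by have := sz_le_of_mem hx'; have := hC a; omega)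
      simp only [List.foldl_cons, List.length_cons]
      nlinarith
  refine (h1 _).trans ?_
  rw [eval_comp]
  refine poly_mono P ((key _ _ (fun x hx => List.mem_of_mem_take hx)).trans ?_)
  have e1 : ((l a).take k).length ≤ C.eval (sz a) :=
    (List.length_take_le' _ _).trans ((length_le_sz _).trans (hC a))
  have e2 := Nat.mul_le_mul_right (Q.eval (sz a + C.eval (sz a))) e1
  have e3 := h3 a
  simp only [eval_add, eval_mul, eval_comp, eval_X]
  omega

/-- `foldl` whose accumulator grows additively in size. -/
theorem PT.foldl_add {f : α → γ → β → γ} {i : α → γ} {l : α → List β}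
    (hf : PT fun p : α × γ × β => f p.1 p.2.1 p.2.2) (hi : PT i) (hl : PT l)
    (h2 : ∃ Q : Polynomial ℕ, ∀ a c x, x ∈ l a → sz (f a c x) ≤ sz c + Q.eval (sz a + sz x)) :
    PT (fun a => (l a).foldl (f a) (i a)) := by
  obtain ⟨Q, hQ⟩ := h2
  obtain ⟨R, hR⟩ := hi.size
  exact PT.foldl_pot hf hi hl sz X Q R (by simp) hQ hR

@[fun_prop] theorem PT.flatMap {f : α → β → List γ} {l : α → List β}
    (hf : PT fun p : α × β => f p.1 p.2) (hl : PT l) : PT (fun a => (l a).flatMap (f a)) := by
  obtain ⟨B, hB⟩ := hf.size
  have h1 : PT fun p : α × List γ × β => f p.1 p.2.2 :=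
    hf.comp (g := fun p : α × List γ × β => (p.1, p.2.2)) (by fun_prop)
  refine (PT.foldl_add (f := fun a c x => c ++ f a x) (i := fun _ => []) (by fun_prop)
    (by fun_prop) hl ⟨B.comp (2 * X + 1), fun a c x _ => ?_⟩).congr fun a => ?_
  · have h2 := hB (a, x)
    have h3 : B.eval (sz (a, x)) ≤ B.eval (2 * (sz a + sz x) + 1) := poly_mono B (by simp; omega)
    simp at h2 h3 ⊢
    omega
  · have : ∀ (l : List β) (c : List γ), l.foldl (fun c x => c ++ f a x) c = c ++ l.flatMap (f a) := by
      intro l
      induction l with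
      | nil => simp
      | cons x xs ih => intro c; simp [ih]
    simp [this]

@[fun_prop] theorem PT.map {f : α → β → γ} {l : α → List β}
    (hf : PT fun p : α × β => f p.1 p.2) (hl : PT l) : PT (fun a => (l a).map (f a)) :=
  (PT.flatMap (f := fun a x => [f a x]) (by fun_prop) hl).congr fun a => by
    induction l a <;> simp_all

@[fun_prop] theorem PT.filter {f : α → β → Bool} {l : α → List β}
    (hf : PT fun p : α × β => f p.1 p.2) (hl : PT l) : PT (fun a => (l a).filter (f a)) :=
  (PT.flatMap (f := fun a x => bif f a x then [x] else []) (by fun_prop) hl).congr fun a => by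
    induction l a with
    | nil => rfl
    | cons x xs ih => cases h : f a x <;> simp [h, ← ih]

@[fun_prop] theorem PT.flatten {l : α → List (List β)} (hl : PT l) : PT (fun a => (l a).flatten) :=
  (PT.flatMap (f := fun _ x => x) (by fun_prop) hl).congr fun a => by simp

@[fun_prop] theorem PT.reverse {l : α → List β} (hl : PT l) : PT (fun a => (l a).reverse) := by
  refine (PT.foldl_add (f := fun _ c x => x :: c) (i := fun _ => []) (by fun_prop)
    (by fun_prop) hl ⟨2 * X + 1, fun a c x _ => ?_⟩).congr fun a => ?_
  · simp; omega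
  · simp

@[fun_prop] theorem PT.any {f : α → β → Bool} {l : α → List β}
    (hf : PT fun p : α × β => f p.1 p.2) (hl : PT l) : PT (fun a => (l a).any (f a)) :=
  (hf.filter hl).isEmpty.not.congr fun a => by
    induction l a with
    | nil => rfl
    | cons x xs ih => cases h : f a x <;> simp [h, ← ih]

@[fun_prop] theorem PT.all {f : α → β → Bool} {l : α → List β}
    (hf : PT fun p : α × β => f p.1 p.2) (hl : PT l) : PT (fun a => (l a).all (f a)) :=
  (PT.any (f := fun a x => !f a x) hf.not hl).not.congr fun a => by
    induction l a with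
    | nil => rfl
    | cons x xs ih => cases h : f a x <;> simp [h, ← ih]

/-! ### Raw strings and equality -/

/-- Strings encoded by themselves. -/
structure Raw where
  s : Str

instance : N487b59b3 Raw where
  encode r := r.s
  decode l := some ⟨l⟩
  decode_encode _ := rfl

theorem enc_raw (r : Raw) : enc r = r.s := rfl

def Raw.tl (r : Raw) : Raw := ⟨r.s.tail⟩
def Raw.em (r : Raw) : Bool := r.s.isEmpty
def Raw.hd (r : Raw) : Bool := r.s.headD false
def toRaw (a : α) : Raw := ⟨enc a⟩

@[fun_prop] theorem PT.toRaw {f : α → β} (hf : PT f) : PT (fun a => toRaw (f a)) := hf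

@[fun_prop] theorem PT.rawTl {f : α → Raw} (hf : PT f) : PT (fun a => (f a).tl) := Poly.tail hf

@[fun_prop] theorem PT.rawEm {f : α → Raw} (hf : PT f) : PT (fun a => (f a).em) := by
  refine Poly.cases hf ?_ ?_ ?_
  · exact (Poly.const _ [true]).congr fun a => by
      have := a.2; simp only [enc_raw] at this; simp [Raw.em, this, enc_bool]
  · exact (Poly.const _ [false]).congr fun a => by
      have := a.2; simp only [enc_raw] at this
      cases h : (f a.1).s <;> simp_all [Raw.em, enc_bool]
  · exact (Poly.const _ [false]).congr fun a => by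
      have := a.2; simp only [enc_raw] at this
      cases h : (f a.1).s <;> simp_all [Raw.em, enc_bool]

@[fun_prop] theorem PT.rawHd {f : α → Raw} (hf : PT f) : PT (fun a => (f a).hd) := by
  refine Poly.cases hf ?_ ?_ ?_
  · exact (Poly.const _ [false]).congr fun a => by
      have := a.2; simp only [enc_raw] at this; simp [Raw.hd, this, enc_bool]
  · exact (Poly.const _ [false]).congr fun a => by
      have := a.2; simp only [enc_raw] at this
      cases h : (f a.1).s <;> simp_all [Raw.hd, enc_bool]
  · exact (Poly.const _ [true]).congr fun a => by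
      have := a.2; simp only [enc_raw] at this
      cases h : (f a.1).s <;> simp_all [Raw.hd, enc_bool]

theorem pt_rawEq : PT (fun p : Raw × Raw => decide (p.1.s = p.2.s)) := by
  let step : Raw × Raw × Bool → Raw × Raw × Bool := fun s =>
    (s.1.tl, s.2.1.tl, s.2.2 && !(xor s.1.em s.2.1.em) && !(xor s.1.hd s.2.1.hd))
  have hstep : PT step := by fun_prop
  have key : ∀ (k : ℕ) (x y : Str) (b : Bool), step^[k] (⟨x⟩, ⟨y⟩, b) =
      (⟨x.drop k⟩, ⟨y.drop k⟩, b && decide (x.take k = y.take k)) := by
    intro k
    induction k with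
    | zero => intro x y b; simp
    | succ k ih =>
      intro x y b
      rw [iterate_succ_apply]
      simp only [step, Raw.tl, Raw.em, Raw.hd] at ih ⊢
      rw [ih]
      rcases x with _ | ⟨a, x⟩ <;> rcases y with _ | ⟨c, y⟩ <;> simp
      cases a <;> cases c <;> simp <;> congr
  have := PT.iterate (i := fun p : Raw × Raw => (p.1, p.2, true)) (c := fun p => p) hstep
    (by fun_prop) (by fun_prop) ⟨2 * X + 3, fun ⟨⟨x⟩, ⟨y⟩⟩ k _ => by
      rw [key]
      simp [sz, enc_raw, enc_pair, enc_bool]
      omega⟩
  refine this.snd.snd.congr fun ⟨⟨x⟩, ⟨y⟩⟩ => ?_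
  rw [key, List.take_of_length_le, List.take_of_length_le]
  · simp
  · simp [sz, enc_raw, enc_pair]
  · simp [sz, enc_raw, enc_pair]; omega

@[fun_prop] theorem PT.decEq {f g : α → β} [∀ a, Decidable (f a = g a)] (hf : PT f) (hg : PT g) :
    PT (fun a => decide (f a = g a)) :=
  (pt_rawEq.comp (hf.toRaw.prodMk hg.toRaw)).congr fun a => by
    simp only [H56.toRaw, decide_eq_decide]
    exact ⟨enc_inj, fun h => h ▸ rfl⟩

@[fun_prop] theorem PT.beq [BEq β] [LawfulBEq β] {f g : α → β} (hf : PT f) (hg : PT g) :
    PT (fun a => f a == g a) := by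
  classical
  exact (hf.decEq hg).congr fun a => by by_cases h : f a = g a <;> simp [h]

@[fun_prop] theorem PT.bne [BEq β] [LawfulBEq β] {f g : α → β} (hf : PT f) (hg : PT g) :
    PT (fun a => f a != g a) := (hf.beq hg).not

@[fun_prop] theorem PT.decNot {p : α → Prop} [DecidablePred p] [∀ a, Decidable (¬ p a)]
    (hp : PT fun a => decide (p a)) : PT (fun a => decide (¬ p a)) :=
  hp.not.congr fun a => by simp

@[fun_prop] theorem PT.decNe {f g : α → β} [∀ a, Decidable (f a ≠ g a)] (hf : PT f) (hg : PT g) :
    PT (fun a => decide (f a ≠ g a)) := by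
  classical
  exact (hf.decEq hg).not.congr fun a => by simp

@[fun_prop] theorem PT.decAnd {p q : α → Prop} [DecidablePred p] [DecidablePred q]
    [∀ a, Decidable (p a ∧ q a)] (hp : PT fun a => decide (p a)) (hq : PT fun a => decide (q a)) :
    PT (fun a => decide (p a ∧ q a)) :=
  (hp.and hq).congr fun a => by simp

@[fun_prop] theorem PT.decOr {p q : α → Prop} [DecidablePred p] [DecidablePred q]
    [∀ a, Decidable (p a ∨ q a)] (hp : PT fun a => decide (p a)) (hq : PT fun a => decide (q a)) :
    PT (fun a => decide (p a ∨ q a)) :=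
  (hp.or hq).congr fun a => by simp

@[fun_prop] theorem PT.decMem {f : α → β} {l : α → List β} [∀ a, Decidable (f a ∈ l a)]
    (hf : PT f) (hl : PT l) : PT (fun a => decide (f a ∈ l a)) := by
  classical
  refine (PT.any (f := fun a x => decide (f a = x)) (by fun_prop) hl).congr fun a => ?_
  rw [Bool.eq_iff_iff]; simp

@[fun_prop] theorem PT.contains [BEq β] [LawfulBEq β] {f : α → β} {l : α → List β}
    (hf : PT f) (hl : PT l) : PT (fun a => (l a).contains (f a)) := by
  classical
  exact (hf.decMem hl).congr fun a => by rw [Bool.eq_iff_iff]; simp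

example : PT (fun p : List (ℕ × Bool) × ℕ =>
    (p.1.filter (fun x => x.1 == p.2)).map (fun x => if x.2 = true ∧ x.1 ≠ 3 then (x.1, p.2) else (0, 1))) := by
  fun_prop

end Pool.Agent.Shared.H56
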