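import Pool.Agent.Shared.H56.Prog
import Pool.Prelude.Def_H_3587d628

/-!
`Poly u v`: the string `v a` is computed from the string `u a` by one program in polynomial time.
-/

set_option autoImplicit false

namespace Pool.Agent.Shared.H56

open Function Polynomial

theorem poly_mono (P : Polynomial ℕ) {m n : ℕ} (h : m ≤ n) : P.eval m ≤ P.eval n := by
  induction P using Polynomial.induction_on' with
  | add p q hp hq => simp only [eval_add]; omega
  | monomial k a =>
    simp only [eval_monomial]
    exact Nat.mul_le_mul_left _ (Nat.pow_le_pow_left h _)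

/-- Four registers. -/
def st4 (a b c d : Str) : St := fun i =>
  if i = 0 then a else if i = 1 then b else if i = 2 then c else if i = 3 then d else []

@[simp] theorem st4_0 (a b c d : Str) : st4 a b c d 0 = a := rfl
@[simp] theorem st4_1 (a b c d : Str) : st4 a b c d 1 = b := rfl
@[simp] theorem st4_2 (a b c d : Str) : st4 a b c d 2 = c := rfl
@[simp] theorem st4_3 (a b c d : Str) : st4 a b c d 3 = d := rfl

@[simp] theorem upd0 (a b c d x : Str) : update (st4 a b c d) 0 x = st4 x b c d := by
  funext i; by_cases h : i = 0 <;> simp [st4, h]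
@[simp] theorem upd1 (a b c d x : Str) : update (st4 a b c d) 1 x = st4 a x c d := by
  funext i; by_cases h : i = 1 <;> simp [st4, h]
@[simp] theorem upd2 (a b c d x : Str) : update (st4 a b c d) 2 x = st4 a b x d := by
  funext i; by_cases h : i = 2 <;> simp [st4, h]
@[simp] theorem upd3 (a b c d x : Str) : update (st4 a b c d) 3 x = st4 a b c x := by
  funext i; by_cases h : i = 3 <;> simp [st4, h]

theorem one_eq (x : Str) : one x = st4 x [] [] [] := by
  funext i; simp [one, st4]

theorem merge_one (a b c d x : Str) : merge 3 (st4 a b c d) (one x) = st4 a b c x := by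
  funext i
  unfold merge st4 one
  split_ifs <;> first | rfl | omega

theorem Exec.at3 {p : Prog} {x y : Str} {t : ℕ} (h : Exec p (one x) (one y) t) (a b c : Str) :
    Exec (p.shift 3) (st4 a b c x) (st4 a b c y) t := by
  have := h.shift 3 (st4 a b c [])
  rwa [merge_one, merge_one] at this

theorem Exec.cast {p : Prog} {s s' s'' : St} {t t' : ℕ} (h : Exec p s s' t) (e : s' = s'')
    (ht : t ≤ t') : Exec p s s'' t' := e ▸ h.mono ht

def clear (r : ℕ) : Prog := .loop r .skip .skip
def move (r r' : ℕ) : Prog := .loop r (.push r' false) (.push r' true)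
def copy2 (r r1 r2 : ℕ) : Prog :=
  .loop r (.seq (.push r1 false) (.push r2 false)) (.seq (.push r1 true) (.push r2 true))

theorem exec_clear (r : ℕ) (l : Str) : ∀ s : St, s r = l →
    Exec (clear r) s (update s r []) (2 * l.length + 1) := by
  induction l with
  | nil => intro s h; exact (Exec.loopE h).cast (by rw [← h, update_eq_self]) (by simp)
  | cons b l ih =>
    intro s h
    cases b
    · exact (Exec.loop0 h (.skip _) (ih _ (by simp))).cast (by simp) (by simp; omega)
    · exact (Exec.loop1 h (.skip _) (ih _ (by simp))).cast (by simp) (by simp; omega)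

theorem exec_move {r r' : ℕ} (hr : r ≠ r') (l : Str) : ∀ s : St, s r = l →
    Exec (move r r') s (update (update s r []) r' (l.reverse ++ s r')) (2 * l.length + 1) := by
  induction l with
  | nil =>
    intro s h
    refine (Exec.loopE h).cast ?_ (by simp)
    rw [← h, update_eq_self]; simp [h]
  | cons b l ih =>
    intro s h
    have key : ∀ b : Bool, update (update (update (update s r l) r' (b :: update s r l r')) r []) r'
        (l.reverse ++ update (update s r l) r' (b :: update s r l r') r') =
        update (update s r []) r' ((b :: l).reverse ++ s r') := by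
      intro b
      funext i
      by_cases h1 : i = r'
      · subst h1; simp [update_of_ne hr.symm]
      · by_cases h2 : i = r
        · subst h2; simp [update_of_ne h1]
        · simp [update_of_ne h1, update_of_ne h2]
    cases b
    · exact (Exec.loop0 h (.push _ _ _) (ih _ (by simp [update_of_ne hr]))).cast (key _)
        (by simp; omega)
    · exact (Exec.loop1 h (.push _ _ _) (ih _ (by simp [update_of_ne hr]))).cast (key _)
        (by simp; omega)

theorem exec_copy (l : Str) : ∀ a b d : Str,
    Exec (copy2 2 1 3) (st4 a b l d) (st4 a (l.reverse ++ b) [] (l.reverse ++ d))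
      (3 * l.length + 1) := by
  induction l with
  | nil => intro a b d; exact (Exec.loopE rfl).cast (by simp) (by simp)
  | cons x l ih =>
    intro a b d
    cases x
    · refine (Exec.loop0 (l := l) rfl (.seq (.push _ _ _) (.push _ _ _)) ?_).cast
        (t := 1 + 1 + (3 * l.length + 1) + 1) rfl (by simp; omega)
      simpa [copy2] using ih a (false :: b) (false :: d)
    · refine (Exec.loop1 (l := l) rfl (.seq (.push _ _ _) (.push _ _ _)) ?_).cast
        (t := 1 + 1 + (3 * l.length + 1) + 1) rfl (by simp; omega)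
      simpa [copy2] using ih a (true :: b) (true :: d)

theorem mv01 (a b c d : Str) :
    Exec (move 0 1) (st4 a b c d) (st4 [] (a.reverse ++ b) c d) (2 * a.length + 1) :=
  (exec_move (by decide) a _ rfl).cast (by simp) le_rfl
theorem mv10 (a b c d : Str) :
    Exec (move 1 0) (st4 a b c d) (st4 (b.reverse ++ a) [] c d) (2 * b.length + 1) :=
  (exec_move (by decide) b _ rfl).cast (by simp) le_rfl
theorem mv02 (a b c d : Str) :
    Exec (move 0 2) (st4 a b c d) (st4 [] b (a.reverse ++ c) d) (2 * a.length + 1) :=
  (exec_move (by decide) a _ rfl).cast (by simp) le_rfl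
theorem mv20 (a b c d : Str) :
    Exec (move 2 0) (st4 a b c d) (st4 (c.reverse ++ a) b [] d) (2 * c.length + 1) :=
  (exec_move (by decide) c _ rfl).cast (by simp) le_rfl
theorem mv12 (a b c d : Str) :
    Exec (move 1 2) (st4 a b c d) (st4 a [] (b.reverse ++ c) d) (2 * b.length + 1) :=
  (exec_move (by decide) b _ rfl).cast (by simp) le_rfl
theorem mv03 (a b c d : Str) :
    Exec (move 0 3) (st4 a b c d) (st4 [] b c (a.reverse ++ d)) (2 * a.length + 1) :=
  (exec_move (by decide) a _ rfl).cast (by simp) le_rfl
theorem mv31 (a b c d : Str) :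
    Exec (move 3 1) (st4 a b c d) (st4 a (d.reverse ++ b) c []) (2 * d.length + 1) :=
  (exec_move (by decide) d _ rfl).cast (by simp) le_rfl
theorem mv32 (a b c d : Str) :
    Exec (move 3 2) (st4 a b c d) (st4 a b (d.reverse ++ c) []) (2 * d.length + 1) :=
  (exec_move (by decide) d _ rfl).cast (by simp) le_rfl
theorem mv23 (a b c d : Str) :
    Exec (move 2 3) (st4 a b c d) (st4 a b [] (c.reverse ++ d)) (2 * c.length + 1) :=
  (exec_move (by decide) c _ rfl).cast (by simp) le_rfl
theorem cl0 (a b c d : Str) : Exec (clear 0) (st4 a b c d) (st4 [] b c d) (2 * a.length + 1) :=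
  (exec_clear 0 a _ rfl).cast (by simp) le_rfl
theorem cl3 (a b c d : Str) : Exec (clear 3) (st4 a b c d) (st4 a b c []) (2 * d.length + 1) :=
  (exec_clear 3 d _ rfl).cast (by simp) le_rfl

/-- Duplicate register 0 into registers 1 and 3. -/
def dup : Prog := .seq (move 0 2) (copy2 2 1 3)

theorem exec_dup (x : Str) : Exec dup (one x) (st4 [] x [] x) (5 * x.length + 2) := by
  rw [one_eq]
  refine ((mv02 _ _ _ _).seq (exec_copy _ _ _ _)).cast (by simp) (by simp; omega)

variable {α : Type}

def Poly (u v : α → Str) : Prop :=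
  ∃ p : Prog, ∃ T : Polynomial ℕ, ∀ a, Exec p (one (u a)) (one (v a)) (T.eval (u a).length)

theorem Poly.size {u v : α → Str} (h : Poly u v) :
    ∃ B : Polynomial ℕ, ∀ a, (v a).length ≤ B.eval (u a).length := by
  obtain ⟨p, T, h⟩ := h
  refine ⟨X + T, fun a => ?_⟩
  simpa [one] using (h a).length_le 0

theorem Poly.refl (u : α → Str) : Poly u u :=
  ⟨.skip, 1, fun a => by simpa using Exec.skip _⟩

theorem Poly.congr {u v v' : α → Str} (h : Poly u v) (e : ∀ a, v a = v' a) : Poly u v' := by
  rwa [← funext e]

theorem Poly.precomp {β : Type} {u v : α → Str} (h : Poly u v) (g : β → α) :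
    Poly (fun b => u (g b)) (fun b => v (g b)) := by
  obtain ⟨p, T, h⟩ := h
  exact ⟨p, T, fun b => h _⟩

theorem Poly.trans {u v w : α → Str} (h1 : Poly u v) (h2 : Poly v w) : Poly u w := by
  obtain ⟨B, hB⟩ := h1.size
  obtain ⟨p, T, h1⟩ := h1
  obtain ⟨q, T', h2⟩ := h2
  refine ⟨.seq p q, T + T'.comp B, fun a => ((h1 a).seq (h2 a)).mono ?_⟩
  have := poly_mono T' (hB a)
  simp only [eval_add, eval_comp]
  omega

theorem Poly.nil (u : α → Str) : Poly u (fun _ => []) :=
  ⟨clear 0, 2 * X + 1, fun a => by
    rw [one_eq, one_eq]; exact (cl0 _ _ _ _).mono (by simp)⟩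

theorem Poly.cons {u v : α → Str} (h : Poly u v) (b : Bool) : Poly u (fun a => b :: v a) :=
  h.trans ⟨.push 0 b, 1, fun a => by
    rw [one_eq, one_eq]; exact (Exec.push _ _ _).cast (by simp) (by simp)⟩

theorem Poly.const (u : α → Str) (c : Str) : Poly u (fun _ => c) := by
  induction c with
  | nil => exact Poly.nil u
  | cons b c ih => exact ih.cons b

theorem Poly.tail {u v : α → Str} (h : Poly u v) : Poly u (fun a => (v a).tail) := by
  refine h.trans ⟨.pop 0 .skip .skip .skip, 2, fun a => ?_⟩
  beta_reduce
  rw [one_eq, one_eq]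
  rcases hv : v a with _ | ⟨b, l⟩
  · exact (Exec.popE rfl (.skip _)).cast rfl (by simp)
  · cases b
    · exact (Exec.pop0 (l := l) rfl (.skip _)).cast (by simp) (by simp)
    · exact (Exec.pop1 (l := l) rfl (.skip _)).cast (by simp) (by simp)

theorem Poly.append {u v w : α → Str} (h1 : Poly u v) (h2 : Poly u w) :
    Poly u (fun a => v a ++ w a) := by
  obtain ⟨B, hB⟩ := h1.size
  obtain ⟨B', hB'⟩ := h2.size
  obtain ⟨p, T, h1⟩ := h1
  obtain ⟨q, T', h2⟩ := h2
  refine ⟨.seq dup (.seq (p.shift 3) (.seq (move 3 2) (.seq (move 1 0) (.seq (move 0 3)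
    (.seq (q.shift 3) (.seq (move 2 3) (.seq (move 3 1) (move 1 0)))))))),
    9 * X + 9 + T + T' + 8 * B + 4 * B', fun a => ?_⟩
  rw [one_eq (v a ++ w a)]
  refine ((exec_dup _).seq (((h1 a).at3 _ _ _).seq ((mv32 _ _ _ _).seq ((mv10 _ _ _ _).seq
    ((mv03 _ _ _ _).seq ((Exec.at3 (by simpa using h2 a) _ _ _).seq ((mv23 _ _ _ _).seq
    ((mv31 _ _ _ _).seq (mv10 _ _ _ _))))))))).cast (by simp) ?_
  have := hB a
  have := hB' a
  simp
  omega

/-- Case distinction on the first bit of `c a`. -/
theorem Poly.cases {u c v : α → Str} (hc : Poly u c)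
    (hE : Poly (fun a : {a // c a = []} => u a.1) (fun a => v a.1))
    (h0 : Poly (fun a : {a // (c a).head? = some false} => u a.1) (fun a => v a.1))
    (h1 : Poly (fun a : {a // (c a).head? = some true} => u a.1) (fun a => v a.1)) :
    Poly u v := by
  obtain ⟨B, hB⟩ := hc.size
  obtain ⟨p, T, hc⟩ := hc
  obtain ⟨pE, TE, hE⟩ := hE
  obtain ⟨p0, T0, h0⟩ := h0
  obtain ⟨p1, T1, h1⟩ := h1
  let back : Prog := .seq (clear 3) (.seq (move 1 2) (move 2 0))
  have hback : ∀ x d : Str, Exec back (st4 [] x [] d) (one x) (2 * d.length + 4 * x.length + 3) := by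
    intro x d
    rw [one_eq]
    exact ((cl3 _ _ _ _).seq ((mv12 _ _ _ _).seq (mv20 _ _ _ _))).cast (by simp) (by simp; omega)
  refine ⟨.seq dup (.seq (p.shift 3) (.pop 3 (.seq back pE) (.seq back p0) (.seq back p1))),
    9 * X + 6 + T + 2 * B + TE + T0 + T1, fun a => ?_⟩
  have hBa := hB a
  rcases hv : c a with _ | ⟨b, l⟩
  · refine ((exec_dup _).seq (((hc a).at3 _ _ _).seq (Exec.popE (by simp [hv])
      ((hback _ _).seq (hE ⟨a, hv⟩))))).mono ?_
    simp
    omega
  · rw [hv] at hBa
    cases b
    · refine ((exec_dup _).seq (((hc a).at3 _ _ _).seq (Exec.pop0 (l := l) (by simp [hv])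
        (Exec.seq (by simpa using hback (u a) l) (h0 ⟨a, by simp [hv]⟩))))).mono ?_
      simp at hBa ⊢
      omega
    · refine ((exec_dup _).seq (((hc a).at3 _ _ _).seq (Exec.pop1 (l := l) (by simp [hv])
        (Exec.seq (by simpa using hback (u a) l) (h1 ⟨a, by simp [hv]⟩))))).mono ?_
      simp at hBa ⊢
      omega

/-- Bounded iteration. -/
theorem Poly.iterate {σ : Type} {u cnt : α → Str} {e : σ → Str} {f : σ → σ} {i : α → σ}
    (hf : Poly e (fun s => e (f s))) (hi : Poly u (fun a => e (i a))) (hc : Poly u cnt)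
    (hB : ∃ B : Polynomial ℕ, ∀ a, ∀ k ≤ (cnt a).length,
      (e (f^[k] (i a))).length ≤ B.eval (u a).length) :
    Poly u (fun a => e (f^[(cnt a).length] (i a))) := by
  obtain ⟨C, hC⟩ := hc.size
  obtain ⟨B, hB⟩ := hB
  obtain ⟨p, T, hf⟩ := hf
  obtain ⟨q, T', hi⟩ := hi
  obtain ⟨r, T'', hc⟩ := hc
  have key : ∀ (b : ℕ) (l : Str) (s : σ), (∀ k ≤ l.length, (e (f^[k] s)).length ≤ b) →
      Exec (.loop 2 (p.shift 3) (p.shift 3)) (st4 [] [] l (e s)) (st4 [] [] [] (e (f^[l.length] s)))
        (l.length * (T.eval b + 1) + 1) := by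
    intro b l
    induction l with
    | nil => intro s _; exact (Exec.loopE rfl).cast rfl (by simp)
    | cons x l ih =>
      intro s hs
      have h0 : T.eval (e s).length ≤ T.eval b := poly_mono T (hs 0 (by simp))
      have ih' := ih (f s) (fun k hk => by
        rw [← iterate_succ_apply]; exact hs _ (by simpa using hk))
      cases x
      · refine (Exec.loop0 (l := l) rfl (by simpa using (hf s).at3 [] [] l) ih').cast rfl ?_
        simp only [List.length_cons]; nlinarith
      · refine (Exec.loop1 (l := l) rfl (by simpa using (hf s).at3 [] [] l) ih').cast rfl ?_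
        simp only [List.length_cons]; nlinarith
  refine ⟨.seq dup (.seq (r.shift 3) (.seq (move 3 2) (.seq (move 1 0) (.seq (move 0 3)
    (.seq (q.shift 3) (.seq (.loop 2 (p.shift 3) (p.shift 3)) (.seq (move 3 1) (move 1 0)))))))),
    9 * X + 9 + T'' + T' + 2 * C + C * (T.comp B + 1) + 4 * B, fun a => ?_⟩
  rw [one_eq (e _)]
  have hk := key (B.eval (u a).length) (cnt a).reverse (i a) (by simpa using hB a)
  refine ((exec_dup _).seq (((hc a).at3 _ _ _).seq ((mv32 _ _ _ _).seq ((mv10 _ _ _ _).seq
    ((mv03 _ _ _ _).seq ((Exec.at3 (by simpa using hi a) _ _ _).seq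
    (Exec.seq (by simpa using hk)
    ((mv31 _ _ _ _).seq (mv10 _ _ _ _))))))))).cast (by simp) ?_
  have h1 := hB a _ le_rfl
  have h2 := hC a
  have h3 := Nat.mul_le_mul_right (T.eval (B.eval (u a).length) + 1) h2
  simp
  omega

theorem Poly.delimit {u v : α → Str} (h : Poly u v) : Poly u (fun a => N487b59b3.delimit (v a)) := by
  let L : Prog := .loop 1 (.seq (.push 0 false) (.push 0 true)) (.seq (.push 0 true) (.push 0 true))
  have key : ∀ (l y : Str), Exec L (st4 (N487b59b3.delimit y) l [] [])
      (st4 (N487b59b3.delimit (l.reverse ++ y)) [] [] []) (3 * l.length + 1) := by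
    intro l
    induction l with
    | nil => intro y; exact (Exec.loopE rfl).cast (by simp) (by simp)
    | cons b l ih =>
      intro y
      cases b
      · refine (Exec.loop0 (l := l) rfl (.seq (.push _ _ _) (.push _ _ _)) ?_).cast
          (t := 1 + 1 + (3 * l.length + 1) + 1) rfl (by simp; omega)
        simpa [L, N487b59b3.delimit] using ih (false :: y)
      · refine (Exec.loop1 (l := l) rfl (.seq (.push _ _ _) (.push _ _ _)) ?_).cast
          (t := 1 + 1 + (3 * l.length + 1) + 1) rfl (by simp; omega)
        simpa [L, N487b59b3.delimit] using ih (true :: y)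
  refine h.trans ⟨.seq (move 0 1) (.seq (.push 0 false) L), 5 * X + 3, fun a => ?_⟩
  beta_reduce
  rw [one_eq, one_eq]
  refine ((mv01 _ _ _ _).seq ((Exec.push _ _ _).seq
    (by simpa [N487b59b3.delimit] using key (v a).reverse []))).cast rfl ?_
  simp
  omega

theorem Poly.fst {u v w : α → Str} (h : Poly u (fun a => N487b59b3.delimit (v a) ++ w a)) : Poly u v := by
  let L : Prog := .loop 0 (clear 0) (.pop 0 .skip (.push 1 false) (.push 1 true))
  have key : ∀ (l y z : Str), Exec L (st4 (N487b59b3.delimit l ++ y) z [] [])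
      (st4 [] (l.reverse ++ z) [] []) (3 * l.length + 2 * y.length + 3) := by
    intro l
    induction l with
    | nil =>
      intro y z
      refine (Exec.loop0 (l := y) rfl (by simpa using cl0 y z [] []) (Exec.loopE rfl)).cast
        (by simp) (by simp)
    | cons b l ih =>
      intro y z
      cases b
      · refine (Exec.loop1 (l := false :: (N487b59b3.delimit l ++ y)) rfl
          (Exec.pop0 (l := N487b59b3.delimit l ++ y) (by simp) (.push _ _ _)) ?_).cast
          (t := 1 + 1 + (3 * l.length + 2 * y.length + 3) + 1) rfl (by simp; omega)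
        simpa [L] using ih y (false :: z)
      · refine (Exec.loop1 (l := true :: (N487b59b3.delimit l ++ y)) rfl
          (Exec.pop1 (l := N487b59b3.delimit l ++ y) (by simp) (.push _ _ _)) ?_).cast
          (t := 1 + 1 + (3 * l.length + 2 * y.length + 3) + 1) rfl (by simp; omega)
        simpa [L] using ih y (true :: z)
  refine h.trans ⟨.seq L (move 1 0), 5 * X + 4, fun a => ?_⟩
  beta_reduce
  rw [one_eq, one_eq]
  refine ((key _ _ _).seq (mv10 _ _ _ _)).cast (by simp) ?_
  simp
  omega

theorem Poly.snd {u v w : α → Str} (h : Poly u (fun a => N487b59b3.delimit (v a) ++ w a)) : Poly u w := by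
  let L : Prog := .loop 0 (move 0 1) (.pop 0 .skip .skip .skip)
  have key : ∀ (l y : Str), Exec L (st4 (N487b59b3.delimit l ++ y) [] [] [])
      (st4 [] y.reverse [] []) (3 * l.length + 2 * y.length + 3) := by
    intro l
    induction l with
    | nil =>
      intro y
      refine (Exec.loop0 (l := y) rfl (by simpa using mv01 y [] [] []) (Exec.loopE rfl)).cast
        (by simp) (by simp)
    | cons b l ih =>
      intro y
      cases b
      · refine (Exec.loop1 (l := false :: (N487b59b3.delimit l ++ y)) rfl
          (Exec.pop0 (l := N487b59b3.delimit l ++ y) (by simp) (.skip _)) ?_).cast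
          (t := 1 + 1 + (3 * l.length + 2 * y.length + 3) + 1) rfl (by simp; omega)
        simpa [L] using ih y
      · refine (Exec.loop1 (l := true :: (N487b59b3.delimit l ++ y)) rfl
          (Exec.pop1 (l := N487b59b3.delimit l ++ y) (by simp) (.skip _)) ?_).cast
          (t := 1 + 1 + (3 * l.length + 2 * y.length + 3) + 1) rfl (by simp; omega)
        simpa [L] using ih y
  refine h.trans ⟨.seq L (move 1 0), 5 * X + 4, fun a => ?_⟩
  beta_reduce
  rw [one_eq, one_eq]
  refine ((key _ _).seq (mv10 _ _ _ _)).cast (by simp) ?_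
  simp
  omega

/-- From `Poly` to the Turing machine notion of Mathlib. -/
theorem Poly.tm2 {β : Type} {ea : α → Str} {eb : β → Str} {f : α → β}
    (h : Poly ea (fun a => eb (f a))) : Nonempty (Turing.TM2ComputableInPolyTime ea eb f) := by
  obtain ⟨p, T, h⟩ := h
  exact ⟨{ tm := p.tm
           inputAlphabet := Equiv.refl _
           outputAlphabet := Equiv.refl _
           time := T
           outputsFun := fun a =>
             (show Exec p (one (List.map id (ea a))) (one (List.map id (eb (f a))))
               (T.eval (ea a).length) by simpa using h a).outputs.some }⟩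

end Pool.Agent.Shared.H56
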