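import Mathlib

/-!
A tiny imperative language on stacks of bits, its cost semantics, and its compilation to `Turing.FinTM2`.
-/

set_option autoImplicit false

namespace Pool.Agent.Shared.H56

open Function

abbrev Str := List Bool
abbrev St := ℕ → Str

inductive Prog : Type
  | skip : Prog
  | push : ℕ → Bool → Prog
  | seq : Prog → Prog → Prog
  | pop : ℕ → Prog → Prog → Prog → Prog
  | loop : ℕ → Prog → Prog → Prog

inductive Exec : Prog → St → St → ℕ → Prop
  | skip (s : St) : Exec .skip s s 1
  | push (r : ℕ) (b : Bool) (s : St) : Exec (.push r b) s (update s r (b :: s r)) 1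
  | seq {p q : Prog} {s s1 s2 : St} {t1 t2 : ℕ} :
      Exec p s s1 t1 → Exec q s1 s2 t2 → Exec (.seq p q) s s2 (t1 + t2)
  | popE {r : ℕ} {pe p0 p1 : Prog} {s s' : St} {t : ℕ} :
      s r = [] → Exec pe s s' t → Exec (.pop r pe p0 p1) s s' (t + 1)
  | pop0 {r : ℕ} {pe p0 p1 : Prog} {s s' : St} {t : ℕ} {l : Str} :
      s r = false :: l → Exec p0 (update s r l) s' t → Exec (.pop r pe p0 p1) s s' (t + 1)
  | pop1 {r : ℕ} {pe p0 p1 : Prog} {s s' : St} {t : ℕ} {l : Str} :
      s r = true :: l → Exec p1 (update s r l) s' t → Exec (.pop r pe p0 p1) s s' (t + 1)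
  | loopE {r : ℕ} {p0 p1 : Prog} {s : St} : s r = [] → Exec (.loop r p0 p1) s s 1
  | loop0 {r : ℕ} {p0 p1 : Prog} {s s1 s2 : St} {t1 t2 : ℕ} {l : Str} :
      s r = false :: l → Exec p0 (update s r l) s1 t1 → Exec (.loop r p0 p1) s1 s2 t2 →
      Exec (.loop r p0 p1) s s2 (t1 + t2 + 1)
  | loop1 {r : ℕ} {p0 p1 : Prog} {s s1 s2 : St} {t1 t2 : ℕ} {l : Str} :
      s r = true :: l → Exec p1 (update s r l) s1 t1 → Exec (.loop r p0 p1) s1 s2 t2 →
      Exec (.loop r p0 p1) s s2 (t1 + t2 + 1)
  | mono {p : Prog} {s s' : St} {t t' : ℕ} : Exec p s s' t → t ≤ t' → Exec p s s' t'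

theorem Exec.length_le {p : Prog} {s s' : St} {t : ℕ} (h : Exec p s s' t) (r : ℕ) :
    (s' r).length ≤ (s r).length + t := by
  have key : ∀ (s : St) (k : ℕ) (b : Bool) (l : Str), s k = b :: l →
      (update s k l r).length ≤ (s r).length := by
    intro s k b l h
    by_cases hr : r = k
    · subst hr; simp [h]
    · simp [update_of_ne hr]
  induction h with
  | skip s => omega
  | push k b s =>
    by_cases hr : r = k
    · subst hr; simp
    · simp [update_of_ne hr]
  | seq _ _ ih1 ih2 => omega
  | popE _ _ ih => omega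
  | pop0 h _ ih => have := key _ _ _ _ h; omega
  | pop1 h _ ih => have := key _ _ _ _ h; omega
  | loopE _ => omega
  | loop0 h _ _ ih1 ih2 => have := key _ _ _ _ h; omega
  | loop1 h _ _ ih1 ih2 => have := key _ _ _ _ h; omega
  | mono _ h ih => omega

/-- Shift all registers by `k`. -/
def Prog.shift (k : ℕ) : Prog → Prog
  | .skip => .skip
  | .push r b => .push (r + k) b
  | .seq p q => .seq (p.shift k) (q.shift k)
  | .pop r a b c => .pop (r + k) (a.shift k) (b.shift k) (c.shift k)
  | .loop r b c => .loop (r + k) (b.shift k) (c.shift k)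

/-- Keep the registers below `k` from `F`, put `s` above. -/
def merge (k : ℕ) (F s : St) : St := fun i => if i < k then F i else s (i - k)

theorem merge_add (k : ℕ) (F s : St) (r : ℕ) : merge k F s (r + k) = s r := by
  simp [merge]

theorem merge_update (k : ℕ) (F s : St) (r : ℕ) (l : Str) :
    update (merge k F s) (r + k) l = merge k F (update s r l) := by
  funext i
  by_cases hi : i = r + k
  · subst hi; simp [merge]
  · rw [update_of_ne hi]
    unfold merge
    split_ifs with h
    · rfl
    · rw [update_of_ne (by omega)]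

theorem Exec.shift {p : Prog} {s s' : St} {t : ℕ} (h : Exec p s s' t) (k : ℕ) (F : St) :
    Exec (p.shift k) (merge k F s) (merge k F s') t := by
  induction h with
  | skip s => exact .skip _
  | push r b s =>
    have := Exec.push (r + k) b (merge k F s)
    rwa [merge_add, merge_update] at this
  | seq _ _ ih1 ih2 => exact .seq ih1 ih2
  | popE h _ ih => exact .popE (by rw [merge_add, h]) ih
  | pop0 h _ ih => exact .pop0 (by rw [merge_add, h]) (by rw [merge_update]; exact ih)
  | pop1 h _ ih => exact .pop1 (by rw [merge_add, h]) (by rw [merge_update]; exact ih)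
  | loopE h => exact .loopE (by rw [merge_add, h])
  | loop0 h _ _ ih1 ih2 => exact .loop0 (by rw [merge_add, h]) (by rw [merge_update]; exact ih1) ih2
  | loop1 h _ _ ih1 ih2 => exact .loop1 (by rw [merge_add, h]) (by rw [merge_update]; exact ih1) ih2
  | mono _ h ih => exact .mono ih h

/-! ### Compilation -/

def Prog.Lab : Prog → Type
  | .skip => Unit
  | .push _ _ => Unit
  | .seq p q => p.Lab ⊕ q.Lab
  | .pop _ a b c => Unit ⊕ a.Lab ⊕ b.Lab ⊕ c.Lab
  | .loop _ b c => Unit ⊕ b.Lab ⊕ c.Lab

theorem Prog.finite_lab : ∀ p : Prog, Finite p.Lab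
  | .skip => inferInstanceAs (Finite Unit)
  | .push _ _ => inferInstanceAs (Finite Unit)
  | .seq p q =>
    haveI := p.finite_lab; haveI := q.finite_lab
    inferInstanceAs (Finite (p.Lab ⊕ q.Lab))
  | .pop _ a b c =>
    haveI := a.finite_lab; haveI := b.finite_lab; haveI := c.finite_lab
    inferInstanceAs (Finite (Unit ⊕ a.Lab ⊕ b.Lab ⊕ c.Lab))
  | .loop _ b c =>
    haveI := b.finite_lab; haveI := c.finite_lab
    inferInstanceAs (Finite (Unit ⊕ b.Lab ⊕ c.Lab))

def Prog.entry : (p : Prog) → p.Lab
  | .skip => ()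
  | .push _ _ => ()
  | .seq p _ => Sum.inl p.entry
  | .pop _ _ _ _ => Sum.inl ()
  | .loop _ _ _ => Sum.inl ()

/-- All registers are at most this number. -/
def Prog.bound : Prog → ℕ
  | .skip => 0
  | .push r _ => r
  | .seq p q => max p.bound q.bound
  | .pop r a b c => max r (max a.bound (max b.bound c.bound))
  | .loop r b c => max r (max b.bound c.bound)

section Code

open Turing Turing.TM2

variable {Λ : Type} (R : ℕ)

abbrev TStmt (Λ : Type) (R : ℕ) : Type := Stmt (fun _ : Fin (R + 1) => Bool) Λ (Option Bool)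
abbrev TCfg (Λ : Type) (R : ℕ) : Type := Cfg (fun _ : Fin (R + 1) => Bool) Λ (Option Bool)

def reg (r : ℕ) : Fin (R + 1) := ⟨min r R, by omega⟩

def jump (n : Option Λ) : TStmt Λ R :=
  match n with
  | none => .load (fun _ => none) .halt
  | some l => .load (fun _ => none) (.goto fun _ => l)

def switch (r : ℕ) (a b c : Option Λ) : TStmt Λ R :=
  .pop (reg R r) (fun _ o => o)
    (.branch (fun v => v.isNone) (jump R a) (.branch (fun v => v == some true) (jump R c) (jump R b)))

def code : (p : Prog) → (p.Lab → Λ) → Option Λ → p.Lab → TStmt Λ R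
  | .skip, _, n, _ => jump R n
  | .push r b, _, n, _ => .push (reg R r) (fun _ => b) (jump R n)
  | .seq p q, e, _, .inl l => code p (fun x => e (.inl x)) (some (e (.inr q.entry))) l
  | .seq _ q, e, n, .inr l => code q (fun x => e (.inr x)) n l
  | .pop r a b c, e, _, .inl _ =>
      switch R r (some (e (.inr (.inl a.entry)))) (some (e (.inr (.inr (.inl b.entry)))))
        (some (e (.inr (.inr (.inr c.entry)))))
  | .pop _ a _ _, e, n, .inr (.inl l) => code a (fun x => e (.inr (.inl x))) n l
  | .pop _ _ b _, e, n, .inr (.inr (.inl l)) => code b (fun x => e (.inr (.inr (.inl x)))) n l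
  | .pop _ _ _ c, e, n, .inr (.inr (.inr l)) => code c (fun x => e (.inr (.inr (.inr x)))) n l
  | .loop r b c, e, n, .inl _ =>
      switch R r n (some (e (.inr (.inl b.entry)))) (some (e (.inr (.inr c.entry))))
  | .loop _ b _, e, _, .inr (.inl l) => code b (fun x => e (.inr (.inl x))) (some (e (.inl ()))) l
  | .loop _ _ c, e, _, .inr (.inr l) => code c (fun x => e (.inr (.inr x))) (some (e (.inl ()))) l

def cfg (l : Option Λ) (s : St) : TCfg Λ R := ⟨l, none, fun k => s k.val⟩

theorem stepAux_jump (n : Option Λ) (v : Option Bool) (S : Fin (R + 1) → Str) :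
    stepAux (jump R n) v S = ⟨n, none, S⟩ := by
  cases n <;> rfl

theorem reg_val {r : ℕ} (h : r ≤ R) : (reg R r).val = r := by
  simp [reg, h]

theorem update_reg {r : ℕ} (h : r ≤ R) (s : St) (l : Str) :
    update (fun k : Fin (R + 1) => s k.val) (reg R r) l = fun k => update s r l k.val := by
  funext k
  by_cases hk : k = reg R r
  · subst hk; simp [reg_val R h]
  · rw [update_of_ne hk, update_of_ne]
    intro h'
    exact hk (Fin.ext (by rw [h', reg_val R h]))

theorem step_switchE {r : ℕ} (h : r ≤ R) (a b c : Option Λ) (s : St) (hs : s r = []) :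
    stepAux (switch R r a b c) none (fun k => s k.val) = cfg R a s := by
  simp only [switch, stepAux, reg_val R h, hs, List.head?_nil, List.tail_nil, Option.isNone_none,
    cond_true, stepAux_jump, update_reg R h, cfg]
  rw [← hs, update_eq_self]

theorem step_switch0 {r : ℕ} (h : r ≤ R) (a b c : Option Λ) (s : St) (l : Str)
    (hs : s r = false :: l) :
    stepAux (switch R r a b c) none (fun k => s k.val) = cfg R b (update s r l) := by
  simp [switch, stepAux, reg_val R h, hs, stepAux_jump, update_reg R h, cfg]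

theorem step_switch1 {r : ℕ} (h : r ≤ R) (a b c : Option Λ) (s : St) (l : Str)
    (hs : s r = true :: l) :
    stepAux (switch R r a b c) none (fun k => s k.val) = cfg R c (update s r l) := by
  simp [switch, stepAux, reg_val R h, hs, stepAux_jump, update_reg R h, cfg]

/-- Reach in at most `t` steps. -/
def Run (M : Λ → TStmt Λ R) (a b : TCfg Λ R) (t : ℕ) : Prop :=
  ∃ n ≤ t, (flip bind (step M))^[n] (some a) = some b

variable {R}

theorem Run.trans {M : Λ → TStmt Λ R} {a b c : TCfg Λ R} {t1 t2 : ℕ} (h1 : Run R M a b t1)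
    (h2 : Run R M b c t2) : Run R M a c (t1 + t2) := by
  obtain ⟨n1, l1, e1⟩ := h1
  obtain ⟨n2, l2, e2⟩ := h2
  exact ⟨n2 + n1, by omega, by rw [iterate_add_apply, e1, e2]⟩

theorem Run.one {M : Λ → TStmt Λ R} {l : Λ} {s : St} {b : TCfg Λ R}
    (h : stepAux (M l) none (fun k => s k.val) = b) : Run R M (cfg R (some l) s) b 1 :=
  ⟨1, le_rfl, by rw [← h]; rfl⟩

theorem Run.mono {M : Λ → TStmt Λ R} {a b : TCfg Λ R} {t t' : ℕ} (h : Run R M a b t)
    (ht : t ≤ t') : Run R M a b t' := by
  obtain ⟨n, l, e⟩ := h
  exact ⟨n, l.trans ht, e⟩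

theorem Exec.run {M : Λ → TStmt Λ R} {p : Prog} {s s' : St} {t : ℕ} (h : Exec p s s' t) :
    p.bound ≤ R → ∀ (e : p.Lab → Λ) (n : Option Λ), (∀ l, M (e l) = code R p e n l) →
      Run R M (cfg R (some (e p.entry)) s) (cfg R n s') t := by
  induction h with
  | skip s =>
    intro _ e n hM
    exact Run.one (by rw [hM]; exact stepAux_jump R n _ _)
  | push r b s =>
    intro hb e n hM
    refine Run.one ?_
    rw [hM]
    simp only [Prog.bound] at hb
    simp only [code, stepAux, stepAux_jump, update_reg R hb, reg_val R hb, cfg]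
  | @seq p q _ _ _ _ _ _ _ ih1 ih2 =>
    intro hb e n hM
    simp only [Prog.bound, max_le_iff] at hb
    exact (ih1 hb.1 (fun x => e (.inl x)) (some (e (.inr q.entry))) (fun l => hM (.inl l))).trans
      (ih2 hb.2 (fun x => e (.inr x)) n (fun l => hM (.inr l)))
  | popE h _ ih =>
    intro hb e n hM
    simp only [Prog.bound, max_le_iff] at hb
    rw [add_comm]
    exact (Run.one (by rw [hM]; exact step_switchE R hb.1 _ _ _ _ h)).trans
      (ih hb.2.1 (fun x => e (.inr (.inl x))) n (fun l => hM (.inr (.inl l))))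
  | pop0 h _ ih =>
    intro hb e n hM
    simp only [Prog.bound, max_le_iff] at hb
    rw [add_comm]
    exact (Run.one (by rw [hM]; exact step_switch0 R hb.1 _ _ _ _ _ h)).trans
      (ih hb.2.2.1 (fun x => e (.inr (.inr (.inl x)))) n (fun l => hM (.inr (.inr (.inl l)))))
  | pop1 h _ ih =>
    intro hb e n hM
    simp only [Prog.bound, max_le_iff] at hb
    rw [add_comm]
    exact (Run.one (by rw [hM]; exact step_switch1 R hb.1 _ _ _ _ _ h)).trans
      (ih hb.2.2.2 (fun x => e (.inr (.inr (.inr x)))) n (fun l => hM (.inr (.inr (.inr l)))))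
  | loopE h =>
    intro hb e n hM
    simp only [Prog.bound, max_le_iff] at hb
    exact Run.one (by rw [hM]; exact step_switchE R hb.1 _ _ _ _ h)
  | loop0 h _ _ ih1 ih2 =>
    intro hb e n hM
    have hb' := hb
    simp only [Prog.bound, max_le_iff] at hb
    refine Run.mono (((Run.one (by rw [hM]; exact step_switch0 R hb.1 _ _ _ _ _ h)).trans
      (ih1 hb.2.1 (fun x => e (.inr (.inl x))) (some (e (.inl ())))
        (fun l => hM (.inr (.inl l))))).trans (ih2 hb' e n hM)) (by omega)
  | loop1 h _ _ ih1 ih2 =>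
    intro hb e n hM
    have hb' := hb
    simp only [Prog.bound, max_le_iff] at hb
    refine Run.mono (((Run.one (by rw [hM]; exact step_switch1 R hb.1 _ _ _ _ _ h)).trans
      (ih1 hb.2.2 (fun x => e (.inr (.inr x))) (some (e (.inl ())))
        (fun l => hM (.inr (.inr l))))).trans (ih2 hb' e n hM)) (by omega)
  | mono _ h ih =>
    intro hb e n hM
    exact (ih hb e n hM).mono h

end Code

/-- The state with `x` in register `0` and all other registers empty. -/
def one (x : Str) : St := fun i => if i = 0 then x else []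

/-- The machine of a program. -/
noncomputable def Prog.tm (p : Prog) : Turing.FinTM2 :=
  haveI := p.finite_lab
  { K := Fin (p.bound + 1)
    k₀ := 0
    k₁ := 0
    Γ := fun _ => Bool
    Λ := p.Lab
    main := p.entry
    ΛFin := Fintype.ofFinite _
    σ := Option Bool
    initialState := none
    m := code p.bound p id none }

theorem Exec.outputs {p : Prog} {x y : Str} {t : ℕ} (h : Exec p (one x) (one y) t) :
    Nonempty (Turing.TM2OutputsInTime p.tm x (some y) t) := by
  obtain ⟨n, hn, e⟩ := h.run (M := code p.bound p id none) le_rfl id none (fun _ => rfl)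
  have h1 : Turing.initList p.tm x = cfg p.bound (some p.entry) (one x) := by
    unfold Turing.initList cfg
    congr 1
    funext k
    by_cases hk : k = (0 : Fin (p.bound + 1))
    · subst hk; rfl
    · have hk' : (k : Fin (p.bound + 1)).val ≠ 0 := fun h => hk (Fin.ext h)
      refine (dif_neg hk).trans ?_
      exact (if_neg hk').symm
  have h2 : Turing.haltList p.tm y = cfg p.bound none (one y) := by
    unfold Turing.haltList cfg
    congr 1
    funext k
    by_cases hk : k = (0 : Fin (p.bound + 1))
    · subst hk; rfl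
    · have hk' : (k : Fin (p.bound + 1)).val ≠ 0 := fun h => hk (Fin.ext h)
      refine (dif_neg hk).trans ?_
      exact (if_neg hk').symm
  refine ⟨⟨⟨n, ?_⟩, hn⟩⟩
  rw [h1]
  show _ = some (Turing.haltList p.tm y)
  rw [h2]
  exact e

end Pool.Agent.Shared.H56
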